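import Mathlib
import Pool.Agent.Lib.MP_89bcae_ag.Xs.Defs

/-!
# The surfaces `y ^ 2 = x g(t, x)`, where the curve `g(t, x) = 0` is an embedded line
-/

open Polynomial IsDedekindDomain

open scoped Classical

namespace Pool.Agent.Lib.MP_89bcae_ag.El

open Pool.Agent.Lib.MP_89bcae_ag.Ze

section

variable {k : Type} [Field k]

/-- The polynomial `x g(t, x)`, in `x` with coefficients in `k[t]`. -/
noncomputable def surf (g : k[X][X]) : k[X][X] := X * g

/-- The curve `g(t, x) = 0` is the embedded line `t = q(s)`, `x = p(s)`: the polynomials `p` and `q` generate the algebra `k[s]`,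
and `g`, in `x` with coefficients in `k[t]`, is monic of degree `deg q`, with `g(q(s), p(s)) = 0`. -/
structure IsLine (p q : k[X]) (g : k[X][X]) : Prop where
  gen : Algebra.adjoin k {p, q} = ⊤
  monic : g.Monic
  degree : g.natDegree = q.natDegree
  vanish : g.eval₂ (compRingHom q) p = 0

/-- The curve `g(t, x) = 0` is the embedded line `t = q(s)`, `x = p(s)`, the degree of `q` is even, the degree of `p` is an even
multiple of it and at least `8`, the derivative of `q` is not `0`, `p` has no multiple roots, and all the even permutations of its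
roots in `F` are induced by automorphisms of `F` over `k`; the characteristic is not `2`. -/
structure IsExample (F : Type) [Field F] [Algebra k F] (p q : k[X]) (g : k[X][X]) : Prop where
  line : IsLine p q g
  two_ne_zero : (2 : k) ≠ 0
  deriv : derivative q ≠ 0
  even_m : Even q.natDegree
  even : ∃ e : ℕ, Even e ∧ p.natDegree = e * q.natDegree
  eight_le : 8 ≤ p.natDegree
  separable : p.Separable
  galois : ∀ g : Equiv.Perm (p.rootSet F), g ∈ alternatingGroup (p.rootSet F) →
    ∃ σ : F ≃ₐ[k] F, ∀ s : p.rootSet F, σ (s : F) = g s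

/-- There is a polynomial `R(t, x)` with `R(q(s), p(s)) = s`. -/
lemma IsLine.exists_inv {p q : k[X]} {g : k[X][X]} (h : IsLine p q g) : ∃ R : k[X][X], R.eval₂ (compRingHom q) p = X := by
  have h1 : (X : k[X]) ∈ Algebra.adjoin k {p, q} := by
    rw [h.gen]
    exact Algebra.mem_top
  refine Algebra.adjoin_induction (p := fun y _ => ∃ R : k[X][X], R.eval₂ (compRingHom q) p = y) ?_ ?_ ?_ ?_ h1
  · rintro y (rfl | rfl)
    · exact ⟨X, eval₂_X _ _⟩
    · exact ⟨C X, by rw [eval₂_C, coe_compRingHom_apply, X_comp]⟩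
  · intro c
    exact ⟨C (C c), by rw [eval₂_C, coe_compRingHom_apply, C_comp]; rfl⟩
  · rintro y z _ _ ⟨R, hR⟩ ⟨T, hT⟩
    exact ⟨R + T, by rw [eval₂_add, hR, hT]⟩
  · rintro y z _ _ ⟨R, hR⟩ ⟨T, hT⟩
    exact ⟨R * T, by rw [eval₂_mul, hR, hT]⟩

lemma natDegree_ne_zero_of_deriv {q : k[X]} (h : derivative q ≠ 0) : q.natDegree ≠ 0 := by
  intro h0
  apply h
  rw [eq_C_of_natDegree_eq_zero h0, derivative_C]

end

section

variable {F L : Type} [Field F] [Field L] [Algebra F[X] L] [IsFractionRing F[X] L]

lemma comp_inj {Q : F[X]} (hQ : Q.natDegree ≠ 0) : Function.Injective ((algebraMap F[X] L).comp (compRingHom Q)) := by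
  refine (IsFractionRing.injective F[X] L).comp ?_
  rw [injective_iff_map_eq_zero]
  intro r hr
  rw [coe_compRingHom_apply, comp_eq_zero_iff] at hr
  rcases hr with hr | hr
  · exact hr
  · exact absurd (by rw [hr.2, natDegree_C]) hQ

end

section

variable {k : Type} [Field k]

/-- The polynomial `p(s)`, in `F[s]`. -/
noncomputable def pF (F : Type) [Field F] [Algebra k F] (p : k[X]) : F[X] := p.map (algebraMap k F)

/-- The polynomial `g(t, x)`, in `F[t][x]`. -/
noncomputable def gF (F : Type) [Field F] [Algebra k F] (g : k[X][X]) : F[X][X] := g.map (mapRingHom (algebraMap k F))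

variable {F L : Type} [Field F] [Algebra k F] [Field L] [Algebra F[X] L] [IsFractionRing F[X] L]

lemma natDegree_pF (p : k[X]) : (pF F p).natDegree = p.natDegree := natDegree_map_eq_of_injective (algebraMap k F).injective p

lemma pF_ne_zero {p : k[X]} (h : p ≠ 0) : pF F p ≠ 0 := by
  unfold pF
  rwa [Ne, Polynomial.map_eq_zero]

/-- The homomorphism of `L = F(t)` to `L = F(s)` which maps `t` to `q(s)`. -/
noncomputable def ex (F L : Type) [Field F] [Algebra k F] [Field L] [Algebra F[X] L] [IsFractionRing F[X] L] (q : k[X])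
    [h : NeZero q.natDegree] : L →+* L :=
  IsFractionRing.lift (comp_inj (F := F) (L := L) (Q := pF F q) (by rw [natDegree_pF]; exact h.out))

lemma ex_algebraMap (q : k[X]) [NeZero q.natDegree] (r : F[X]) :
    ex F L q (algebraMap F[X] L r) = algebraMap F[X] L (r.comp (pF F q)) :=
  IsFractionRing.lift_algebraMap _ r

/-- The equation over `F`. -/
lemma gF_vanish {p q : k[X]} {g : k[X][X]} (h : IsLine p q g) : (gF F g).eval₂ (compRingHom (pF F q)) (pF F p) = 0 := by
  have h1 := congrArg (mapRingHom (algebraMap k F)) h.vanish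
  rw [map_zero, hom_eval₂] at h1
  unfold gF pF
  rw [eval₂_map]
  have h2 : (compRingHom (q.map (algebraMap k F))).comp (mapRingHom (algebraMap k F)) =
      (mapRingHom (algebraMap k F)).comp (compRingHom q) := by
    refine RingHom.ext fun r => ?_
    simp only [RingHom.comp_apply, coe_compRingHom_apply, coe_mapRingHom, Polynomial.map_comp]
  rw [h2]
  exact h1

lemma gF_monic {p q : k[X]} {g : k[X][X]} (h : IsLine p q g) : (gF F g).Monic := h.monic.map _

lemma gF_natDegree {p q : k[X]} {g : k[X][X]} (h : IsLine p q g) : (gF F g).natDegree = q.natDegree := by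
  unfold gF
  rw [h.monic.natDegree_map, h.degree]

/-- The inverse over `F`. -/
lemma exists_invF {p q : k[X]} {g : k[X][X]} (h : IsLine p q g) :
    ∃ R : F[X][X], R.eval₂ (compRingHom (pF F q)) (pF F p) = X := by
  obtain ⟨R, hR⟩ := h.exists_inv
  refine ⟨R.map (mapRingHom (algebraMap k F)), ?_⟩
  have h1 := congrArg (mapRingHom (algebraMap k F)) hR
  rw [hom_eval₂] at h1
  unfold pF
  rw [eval₂_map]
  have h2 : (compRingHom (q.map (algebraMap k F))).comp (mapRingHom (algebraMap k F)) =
      (mapRingHom (algebraMap k F)).comp (compRingHom q) := by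
    refine RingHom.ext fun r => ?_
    simp only [RingHom.comp_apply, coe_compRingHom_apply, coe_mapRingHom, Polynomial.map_comp]
  rw [h2]
  simpa using h1

/-- The polynomial `g`, over `L = F(t)`. -/
noncomputable def gL (F L : Type) [Field F] [Algebra k F] [Field L] [Algebra F[X] L] (g : k[X][X]) : L[X] :=
  (gF F g).map (algebraMap F[X] L)

lemma poly_surf (g : k[X][X]) : poly F L (surf g) = X * gL F L g := by
  unfold poly surf Zs.ext gL gF
  simp only [Polynomial.map_mul, map_X]

lemma gL_monic {p q : k[X]} {g : k[X][X]} (h : IsLine p q g) : (gL F L g).Monic := (gF_monic h).map _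

lemma gL_natDegree {p q : k[X]} {g : k[X][X]} (h : IsLine p q g) : (gL F L g).natDegree = q.natDegree := by
  unfold gL
  rw [(gF_monic h).natDegree_map, gF_natDegree h]

/-- The evaluation of a polynomial with coefficients in `F[t]` on the line. -/
lemma eval₂_ex_map {q : k[X]} [NeZero q.natDegree] (A : F[X][X]) (z : F[X]) :
    (A.map (algebraMap F[X] L)).eval₂ (ex F L q) (algebraMap F[X] L z) =
      algebraMap F[X] L (A.eval₂ (compRingHom (pF F q)) z) := by
  rw [eval₂_map, hom_eval₂]
  congr 1
  refine RingHom.ext fun r => ?_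
  rw [RingHom.comp_apply, RingHom.comp_apply, ex_algebraMap, coe_compRingHom_apply]

lemma gL_vanish {p q : k[X]} {g : k[X][X]} [NeZero q.natDegree] (h : IsLine p q g) :
    (gL F L g).eval₂ (ex F L q) (algebraMap F[X] L (pF F p)) = 0 := by
  unfold gL
  rw [eval₂_ex_map, gF_vanish h, map_zero]

/-- The component `x = 0`. -/
noncomputable def pi1 (F L : Type) [Field F] [Algebra k F] [Field L] [Algebra F[X] L] [IsFractionRing F[X] L]
    (g : k[X][X]) : AdjoinRoot (poly F L (surf g)) →+* L :=
  AdjoinRoot.lift (RingHom.id L) 0 (by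
    rw [poly_surf, eval₂_mul, eval₂_X, zero_mul])

lemma pi1_mk (g : k[X][X]) (A : L[X]) : pi1 F L g (AdjoinRoot.mk _ A) = A.eval 0 := by
  unfold pi1
  rw [AdjoinRoot.lift_mk, eval₂_id]

/-- The component `g = 0`, with the parameter `s`, where `t = q(s)` and `x = p(s)`. -/
noncomputable def pi0 (F L : Type) [Field F] [Algebra k F] [Field L] [Algebra F[X] L] [IsFractionRing F[X] L]
    {p q : k[X]} {g : k[X][X]} [NeZero q.natDegree] (h : IsLine p q g) : AdjoinRoot (poly F L (surf g)) →+* L :=
  AdjoinRoot.lift (ex F L q) (algebraMap F[X] L (pF F p)) (by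
    rw [poly_surf, eval₂_mul, gL_vanish h, mul_zero])

lemma pi0_mk {p q : k[X]} {g : k[X][X]} [NeZero q.natDegree] (h : IsLine p q g) (A : L[X]) :
    pi0 F L h (AdjoinRoot.mk _ A) = A.eval₂ (ex F L q) (algebraMap F[X] L (pF F p)) := by
  unfold pi0
  rw [AdjoinRoot.lift_mk]

end

end Pool.Agent.Lib.MP_89bcae_ag.El
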