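import Mathlib
import Pool.Agent.Lib.MP_89bcae_ag.El.Defs

/-!
# The powers of `s` are independent over the field of the functions of `q(s)`
-/

open Polynomial IsDedekindDomain

open scoped Classical

namespace Pool.Agent.Lib.MP_89bcae_ag.El

open Pool.Agent.Lib.MP_89bcae_ag.Ze

section

variable {F : Type} [Field F]

/-- The powers of `s` of exponents smaller than the degree of `Q` are independent over the polynomials in `Q`. -/
lemma kera_comp_indep {Q : F[X]} {m : ℕ} (hQ : Q.natDegree = m) (hm : 0 < m) {P : ℕ → F[X]}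
    (h : ∑ i ∈ Finset.range m, (P i).comp Q * X ^ i = 0) : ∀ i < m, P i = 0 := by
  have hdeg : ∀ i, (P i).comp Q * X ^ i ≠ 0 →
      ((P i).comp Q * X ^ i).degree = (((P i).natDegree * m + i : ℕ) : WithBot ℕ) := by
    intro i hi
    rw [degree_eq_natDegree hi, natDegree_mul_X_pow, natDegree_comp, hQ]
    exact left_ne_zero_of_mul hi
  have h1 := degree_sum_eq_of_disjoint (fun i => (P i).comp Q * X ^ i) (Finset.range m) (by
    rintro i ⟨hi, hi0⟩ j ⟨hj, hj0⟩ hij heq
    rw [Function.comp_apply, Function.comp_apply, hdeg i hi0, hdeg j hj0] at heq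
    have h2 : (P i).natDegree * m + i = (P j).natDegree * m + j := by exact_mod_cast heq
    apply hij
    have h3 : i % m = j % m := by
      have := congrArg (· % m) h2
      simpa [Nat.mul_add_mod', Nat.add_mod] using this
    rwa [Nat.mod_eq_of_lt (Finset.mem_range.1 hi), Nat.mod_eq_of_lt (Finset.mem_range.1 hj)] at h3)
  rw [h, degree_zero] at h1
  intro i hi
  have h2 : ((P i).comp Q * X ^ i).degree ≤ ⊥ := by
    rw [h1]
    exact Finset.le_sup (f := fun i => ((P i).comp Q * X ^ i).degree) (Finset.mem_range.2 hi)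
  have h3 : (P i).comp Q * X ^ i = 0 := degree_eq_bot.1 (le_bot_iff.1 h2)
  have h4 : (P i).comp Q = 0 := (mul_eq_zero.1 h3).resolve_right (pow_ne_zero _ X_ne_zero)
  rcases comp_eq_zero_iff.1 h4 with h5 | h5
  · exact h5
  · exfalso
    rw [h5.2, natDegree_C] at hQ
    omega

end

variable {k F L : Type} [Field k] [Field F] [Algebra k F] [Field L] [Algebra F[X] L] [IsFractionRing F[X] L]
  {p q : k[X]} {g : k[X][X]} [NeZero q.natDegree]

/-- The powers of `s` of exponents smaller than `m = deg q` are independent over the field of the functions of `q(s)`.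
Proof (compare `ex_indep` in `Xm/Comp.lean`, the case `q = s ^ m`): multiply the `c i` by a common denominator `b` in `F[t]`
(`IsLocalization.exist_integer_multiples`): `c i = P i / b`; then `∑ (P i).comp Q * X ^ i = 0` in `F[X]`, where `Q = pF F q` has
degree `m > 0`. The degree of `(P i).comp Q * X ^ i`, if it is not `0`, is `m * deg (P i) + i`, these are distinct for distinct
`i < m` (they are `i` modulo `m`), so `degree_sum_eq_of_disjoint` shows that all the terms are `0`; and `P.comp Q = 0` implies
`P = 0` (`comp_inj`, or `comp_eq_zero_iff`). -/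
theorem ex_indep {c : ℕ → L} (h : ∑ i ∈ Finset.range q.natDegree, ex F L q (c i) * algebraMap F[X] L X ^ i = 0) :
    ∀ i < q.natDegree, c i = 0 := by
  have hm : 0 < q.natDegree := Nat.pos_of_ne_zero (NeZero.ne q.natDegree)
  have hinj : Function.Injective (algebraMap F[X] L) := IsFractionRing.injective F[X] L
  obtain ⟨b, hb⟩ := IsLocalization.exist_integer_multiples (nonZeroDivisors F[X]) (Finset.range q.natDegree) c
  have hb0 : algebraMap F[X] L (b : F[X]) ≠ 0 := by
    rw [Ne, _root_.map_eq_zero_iff _ hinj]
    exact nonZeroDivisors.ne_zero b.2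
  have hP : ∀ i, ∃ P : F[X], i < q.natDegree → algebraMap F[X] L P = algebraMap F[X] L (b : F[X]) * c i := by
    intro i
    by_cases hi : i < q.natDegree
    · obtain ⟨P, hP⟩ := hb i (Finset.mem_range.2 hi)
      refine ⟨P, fun _ => ?_⟩
      rw [hP]
      show (b : F[X]) • c i = _
      rw [Algebra.smul_def]
    · exact ⟨0, fun h => absurd h hi⟩
  choose P hP using hP
  have h1 : algebraMap F[X] L (∑ i ∈ Finset.range q.natDegree, (P i).comp (pF F q) * X ^ i) = 0 := by
    rw [map_sum]
    have h2 : ∀ i ∈ Finset.range q.natDegree, algebraMap F[X] L ((P i).comp (pF F q) * X ^ i) =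
        ex F L q (algebraMap F[X] L (b : F[X])) * (ex F L q (c i) * algebraMap F[X] L X ^ i) := by
      intro i hi
      rw [map_mul, map_pow, ← ex_algebraMap, hP i (Finset.mem_range.1 hi), map_mul]
      ring
    rw [Finset.sum_congr rfl h2, ← Finset.mul_sum, h, mul_zero]
  rw [_root_.map_eq_zero_iff _ hinj] at h1
  intro i hi
  have h2 := hP i hi
  rw [kera_comp_indep (natDegree_pF q) hm h1 i hi, map_zero] at h2
  exact (mul_eq_zero.1 h2.symm).resolve_left hb0

end Pool.Agent.Lib.MP_89bcae_ag.El
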