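import Mathlib
import Pool.Agent.Lib.MP_89bcae_ag.El.KerA

/-!
# The polynomials which vanish on the line
-/

open Polynomial IsDedekindDomain

open scoped Classical

namespace Pool.Agent.Lib.MP_89bcae_ag.El

open Pool.Agent.Lib.MP_89bcae_ag.Ze

variable {k F L : Type} [Field k] [Field F] [Algebra k F] [Field L] [Algebra F[X] L] [IsFractionRing F[X] L]
  {p q : k[X]} {g : k[X][X]} [NeZero q.natDegree]

/-- A polynomial of degree smaller than `m = deg q` which vanishes at `x = p(s)`, `t = q(s)` is `0`.
Proof: let `R` be given by `exists_invF` (`R(q(s), p(s)) = s`), `R i = (R ^ i).map (algebraMap F[X] L) %ₘ gL F L g`, for `i < m`: a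
polynomial of degree `< m` with `(R i).eval₂ (ex F L q) p(s) = s ^ i` (`eval₂_ex_map`, `gL_vanish`, `modByMonic_add_div`). The `m`
elements `R i` of the space `degreeLT L m`, of dimension `m`, are linearly independent over `L`: if `∑ C (c i) * R i = 0` evaluate
at `p(s)`: `∑ ex (c i) * s ^ i = 0`, so `c i = 0` by `ex_indep`. So they span the space, `A = ∑ C (c i) * R i`, and the evaluation of
`A` is `∑ ex (c i) * s ^ i = 0`, so all `c i = 0` (`ex_indep` again) and `A = 0`. -/
theorem eq_zero_of_degree_lt (h : IsLine p q g) {A : L[X]} (hd : A.degree < (q.natDegree : WithBot ℕ))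
    (hA : A.eval₂ (ex F L q) (algebraMap F[X] L (pF F p)) = 0) : A = 0 := by
  have hgd : (gL F L g).degree = (q.natDegree : WithBot ℕ) := by
    rw [degree_eq_natDegree (gL_monic h).ne_zero, gL_natDegree h]
  obtain ⟨R, hR⟩ := exists_invF (F := F) h
  let E : L[X] →+* L := eval₂RingHom (ex F L q) (algebraMap F[X] L (pF F p))
  have hE : ∀ B : L[X], E B = B.eval₂ (ex F L q) (algebraMap F[X] L (pF F p)) := fun B => rfl
  have hEg : E (gL F L g) = 0 := by rw [hE, gL_vanish h]
  let r : ℕ → L[X] := fun i => (R ^ i).map (algebraMap F[X] L) %ₘ gL F L g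
  have hrd : ∀ i, (r i).degree < (q.natDegree : WithBot ℕ) := by
    intro i
    rw [← hgd]
    exact degree_modByMonic_lt _ (gL_monic h)
  have hre : ∀ i, E (r i) = algebraMap F[X] L X ^ i := by
    intro i
    have h1 : r i + gL F L g * ((R ^ i).map (algebraMap F[X] L) /ₘ gL F L g) =
        (R ^ i).map (algebraMap F[X] L) := modByMonic_add_div _ _
    have h2 := congrArg E h1
    rw [map_add, map_mul, hEg, zero_mul, add_zero, hE ((R ^ i).map _), eval₂_ex_map, eval₂_pow, hR, map_pow] at h2
    exact h2
  let v : Fin q.natDegree → degreeLT L q.natDegree := fun i => ⟨r i, mem_degreeLT.2 (hrd i)⟩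
  have key : ∀ c : Fin q.natDegree → L, E (∑ i, c i • r i) = 0 → ∀ i, c i = 0 := by
    intro c hc
    let c' : ℕ → L := fun i => if hi : i < q.natDegree then c ⟨i, hi⟩ else 0
    have hc' : ∀ i : Fin q.natDegree, c' i = c i := by
      intro i
      simp only [c', i.2, dif_pos, Fin.eta]
    have h3 : ∑ i ∈ Finset.range q.natDegree, ex F L q (c' i) * algebraMap F[X] L X ^ i = 0 := by
      rw [← Fin.sum_univ_eq_sum_range (fun i => ex F L q (c' i) * algebraMap F[X] L X ^ i)]
      rw [map_sum] at hc
      rw [← hc]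
      refine Finset.sum_congr rfl fun i _ => ?_
      rw [hc', smul_eq_C_mul, map_mul, hre, hE (C _), eval₂_C]
    intro i
    rw [← hc' i]
    exact ex_indep h3 i i.2
  have hli : LinearIndependent L v := by
    rw [Fintype.linearIndependent_iff]
    intro c hc
    apply key c
    have h4 := congrArg (Submodule.subtype (degreeLT L q.natDegree)) hc
    rw [map_sum, map_zero] at h4
    have h5 : ∑ i, c i • r i = 0 := by
      rw [← h4]
      exact Finset.sum_congr rfl fun i _ => rfl
    rw [h5, map_zero]
  have hfin : Module.finrank L (degreeLT L q.natDegree) = q.natDegree := by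
    rw [(degreeLTEquiv L q.natDegree).finrank_eq, Module.finrank_fin_fun]
  have : FiniteDimensional L (degreeLT L q.natDegree) :=
    Module.Finite.equiv (degreeLTEquiv L q.natDegree).symm
  have : Nonempty (Fin q.natDegree) := ⟨⟨0, Nat.pos_of_ne_zero (NeZero.ne _)⟩⟩
  have hsp : Submodule.span L (Set.range v) = ⊤ :=
    hli.span_eq_top_of_card_eq_finrank (by rw [Fintype.card_fin, hfin])
  have hmem : (⟨A, mem_degreeLT.2 hd⟩ : degreeLT L q.natDegree) ∈ Submodule.span L (Set.range v) := by
    rw [hsp]
    exact Submodule.mem_top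
  obtain ⟨c, hc⟩ := (Submodule.mem_span_range_iff_exists_fun L).1 hmem
  have h6 : ∑ i, c i • r i = A := by
    have h4 := congrArg (Submodule.subtype (degreeLT L q.natDegree)) hc
    rw [map_sum] at h4
    exact h4
  have h7 : ∀ i, c i = 0 := key c (by rw [h6, hE, hA])
  rw [← h6]
  exact Finset.sum_eq_zero fun i _ => by rw [h7 i, zero_smul]

/-- The polynomials over `L` which vanish on the line are divisible by `g`. Proof: apply `eq_zero_of_degree_lt` to the remainder
`A %ₘ gL F L g`, of degree `< m` (`gL_monic h`, `gL_natDegree h`). -/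
theorem gL_dvd (h : IsLine p q g) {A : L[X]} (hA : A.eval₂ (ex F L q) (algebraMap F[X] L (pF F p)) = 0) :
    gL F L g ∣ A := by
  have hgd : (gL F L g).degree = (q.natDegree : WithBot ℕ) := by
    rw [degree_eq_natDegree (gL_monic h).ne_zero, gL_natDegree h]
  rw [← modByMonic_eq_zero_iff_dvd (gL_monic h)]
  apply eq_zero_of_degree_lt (F := F) h
  · rw [← hgd]
    exact degree_modByMonic_lt _ (gL_monic h)
  · have h1 : A %ₘ gL F L g + gL F L g * (A /ₘ gL F L g) = A := modByMonic_add_div _ _
    have h2 := congrArg (eval₂ (ex F L q) (algebraMap F[X] L (pF F p))) h1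
    rw [eval₂_add, eval₂_mul, gL_vanish h, zero_mul, add_zero, hA] at h2
    exact h2

omit [NeZero q.natDegree] in
/-- The polynomials over `F[t]` which vanish on the line are divisible by `g`. Proof: the remainder `B = A %ₘ gF F g` has degree
`< m` and vanishes; map it to `L[x]`, with `L = RatFunc F` (or `FractionRing F[X]`), and use `eval₂_ex_map` and
`eq_zero_of_degree_lt`; the map is injective. -/
theorem gF_dvd [NeZero q.natDegree] (h : IsLine p q g) {A : F[X][X]}
    (hA : A.eval₂ (compRingHom (pF F q)) (pF F p) = 0) : gF F g ∣ A := by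
  have hgd : (gF F g).degree = (q.natDegree : WithBot ℕ) := by
    rw [degree_eq_natDegree (gF_monic h).ne_zero, gF_natDegree h]
  rw [← modByMonic_eq_zero_iff_dvd (gF_monic h)]
  have h1 : A %ₘ gF F g + gF F g * (A /ₘ gF F g) = A := modByMonic_add_div _ _
  have h2 := congrArg (eval₂ (compRingHom (pF F q)) (pF F p)) h1
  rw [eval₂_add, eval₂_mul, gF_vanish h, zero_mul, add_zero, hA] at h2
  have hinj : Function.Injective (algebraMap F[X] (FractionRing F[X])) :=
    IsFractionRing.injective F[X] (FractionRing F[X])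
  have h3 : (A %ₘ gF F g).map (algebraMap F[X] (FractionRing F[X])) = 0 := by
    apply eq_zero_of_degree_lt (F := F) h
    · refine lt_of_le_of_lt degree_map_le ?_
      rw [← hgd]
      exact degree_modByMonic_lt _ (gF_monic h)
    · rw [eval₂_ex_map, h2, map_zero]
  exact (Polynomial.map_eq_zero_iff hinj).1 h3

/-- The polynomial `g(t, 0)` is not `0`. Proof: otherwise `gL F L g = X * B`, `B` is monic of degree `m - 1`, and
`B(p(s)) * p(s) = 0`, so `B(p(s)) = 0` (`p ≠ 0`, `pF_ne_zero`) and `B = 0` by `eq_zero_of_degree_lt`, a contradiction. -/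
theorem gL_eval_zero (h : IsLine p q g) (hp : p ≠ 0) : (gL F L g).eval 0 ≠ 0 := by
  intro h0
  have h1 : (gL F L g).coeff 0 = 0 := by rw [coeff_zero_eq_eval_zero, h0]
  obtain ⟨B, hB⟩ := X_dvd_iff.2 h1
  have hg0 : gL F L g ≠ 0 := (gL_monic h).ne_zero
  have hB0 : B ≠ 0 := by
    rintro rfl
    rw [mul_zero] at hB
    exact hg0 hB
  have hd : (gL F L g).natDegree = B.natDegree + 1 := by
    rw [hB, natDegree_X_mul hB0]
  rw [gL_natDegree h] at hd
  apply hB0
  apply eq_zero_of_degree_lt (F := F) h
  · rw [degree_eq_natDegree hB0, hd]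
    exact_mod_cast Nat.lt_succ_self _
  · have h2 := gL_vanish (L := L) (F := F) h
    rw [hB, eval₂_mul, eval₂_X] at h2
    rcases mul_eq_zero.1 h2 with h3 | h3
    · exfalso
      have h4 : pF F p = 0 := by
        apply IsFractionRing.injective F[X] L
        rw [h3, map_zero]
      exact pF_ne_zero hp h4
    · exact h3

end Pool.Agent.Lib.MP_89bcae_ag.El
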