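import Mathlib
import Pool.Agent.Lib.MP_89bcae_ag.El.KerB

/-!
# The two components of the branch curve
-/

open Polynomial IsDedekindDomain

open scoped Classical

namespace Pool.Agent.Lib.MP_89bcae_ag.El

open Pool.Agent.Lib.MP_89bcae_ag.Ze

variable {k F L : Type} [Field k] [Field F] [Algebra k F] [Field L] [Algebra F[X] L] [IsFractionRing F[X] L]
  {p q : k[X]} {g : k[X][X]} [NeZero q.natDegree]

/-- Proof as `pi_injective` in `Xm/Comp.lean`, with `gL_dvd` and `gL_eval_zero` for `hyp_dvd` and `hyp_eval_zero`. -/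
theorem pi_injective (h : IsLine p q g) (hp : p ≠ 0) {u : AdjoinRoot (poly F L (surf g))} (h1 : pi1 F L g u = 0)
    (h0 : pi0 F L h u = 0) : u = 0 := by
  obtain ⟨A, rfl⟩ := AdjoinRoot.mk_surjective u
  rw [pi1_mk] at h1
  rw [pi0_mk] at h0
  obtain ⟨B, rfl⟩ := gL_dvd h h0
  rw [eval_mul] at h1
  have h2 : B.eval 0 = 0 := (mul_eq_zero.1 h1).resolve_left (gL_eval_zero h hp)
  have h3 : X ∣ B := by
    rw [X_dvd_iff, coeff_zero_eq_eval_zero]
    exact h2
  obtain ⟨D, rfl⟩ := h3
  rw [AdjoinRoot.mk_eq_zero, poly_surf]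
  exact ⟨D, by ring⟩

/-- The image of `pi0` contains `F[s]`. -/
private lemma kerc_exists (h : IsLine p q g) (P : F[X]) : ∃ u, pi0 F L h u = algebraMap F[X] L P := by
  obtain ⟨R, hR⟩ := exists_invF (F := F) h
  let φ : F[X] →+* AdjoinRoot (poly F L (surf g)) :=
    eval₂RingHom (((AdjoinRoot.of (poly F L (surf g))).comp (algebraMap F[X] L)).comp C)
      (AdjoinRoot.mk _ (R.map (algebraMap F[X] L)))
  have hφ : (pi0 F L h).comp φ = algebraMap F[X] L := by
    refine Polynomial.ringHom_ext (fun c => ?_) ?_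
    · show pi0 F L h (φ (C c)) = _
      have h1 : φ (C c) = AdjoinRoot.mk _ (C (algebraMap F[X] L (C c))) := by
        show (C c : F[X]).eval₂ _ _ = _
        rw [eval₂_C]
        rfl
      rw [h1, pi0_mk, eval₂_C, ex_algebraMap, C_comp]
    · show pi0 F L h (φ X) = _
      have h1 : φ X = AdjoinRoot.mk _ (R.map (algebraMap F[X] L)) := by
        show (X : F[X]).eval₂ _ _ = _
        rw [eval₂_X]
      rw [h1, pi0_mk, eval₂_ex_map, hR]
  exact ⟨φ P, RingHom.congr_fun hφ P⟩

/-- Proof as `pi0_surjective` in `Xm/Comp.lean`: the ring `AdjoinRoot (poly F L (surf g))` is Artinian (the polynomial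
`X * gL F L g` is monic), so the kernel of `pi0` is maximal; the image contains `F[s]`: if `R` is given by `exists_invF`, the
homomorphism `φ : F[X] →+* AdjoinRoot _`, which maps `X` to `AdjoinRoot.mk _ (R.map (algebraMap F[X] L))` and the constants to
the constants, satisfies `(pi0 F L h).comp φ = algebraMap F[X] L` (`eval₂_ex_map`). -/
theorem pi0_surjective (h : IsLine p q g) : Function.Surjective (pi0 F L h) := by
  intro z
  have hmon : (poly F L (surf g)).Monic := by
    rw [poly_surf]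
    exact monic_X.mul (gL_monic h)
  have hfin : Module.Finite L (AdjoinRoot (poly F L (surf g))) := hmon.finite_adjoinRoot
  have hart : IsArtinianRing (AdjoinRoot (poly F L (surf g))) := IsArtinianRing.of_finite L _
  have hprime : (RingHom.ker (pi0 F L h)).IsPrime := RingHom.ker_isPrime _
  have hmax : (RingHom.ker (pi0 F L h)).IsMaximal := IsArtinianRing.isMaximal_of_isPrime _
  obtain ⟨P, Q, hQ, rfl⟩ := IsFractionRing.div_surjective (A := F[X]) z
  obtain ⟨u, hu⟩ := kerc_exists (L := L) h P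
  obtain ⟨v, hv⟩ := kerc_exists (L := L) h Q
  have hQ0 : algebraMap F[X] L Q ≠ 0 := by
    rw [Ne, _root_.map_eq_zero_iff _ (IsFractionRing.injective F[X] L)]
    exact nonZeroDivisors.ne_zero hQ
  have hv0 : v ∉ RingHom.ker (pi0 F L h) := by
    rw [RingHom.mem_ker, hv]
    exact hQ0
  obtain ⟨w, i, hi, hw⟩ := hmax.exists_inv hv0
  have h1 := congrArg (pi0 F L h) hw
  rw [map_add, map_mul, RingHom.mem_ker.1 hi, add_zero, hv, map_one] at h1
  refine ⟨u * w, ?_⟩
  rw [map_mul, hu, eq_div_iff hQ0, mul_assoc, h1, mul_one]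

omit [NeZero q.natDegree] in
theorem pi1_surjective (g : k[X][X]) : Function.Surjective (pi1 F L g) := by
  intro y
  exact ⟨AdjoinRoot.mk _ (C y), by rw [pi1_mk, eval_C]⟩

/-- Proof as `pi_surjective` in `Xm/Comp.lean`. -/
theorem pi_surjective (h : IsLine p q g) (hp : p ≠ 0) (y z : L) :
    ∃ u : AdjoinRoot (poly F L (surf g)), pi1 F L g u = y ∧ pi0 F L h u = z := by
  obtain ⟨u, hu⟩ := pi0_surjective (F := F) (L := L) h z
  refine ⟨u + AdjoinRoot.mk _ (C ((y - pi1 F L g u) / (gL F L g).eval 0) * gL F L g), ?_, ?_⟩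
  · rw [map_add, pi1_mk, eval_mul, eval_C, div_mul_cancel₀ _ (gL_eval_zero h hp)]
    ring
  · rw [map_add, pi0_mk, eval₂_mul, gL_vanish h, mul_zero, add_zero, hu]

end Pool.Agent.Lib.MP_89bcae_ag.El
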