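import Mathlib
import Pool.Agent.Lib.MP_89bcae_ag.El.KerB

/-!
# The points of the line, and its smoothness
-/

open Polynomial IsDedekindDomain

open scoped Classical

namespace Pool.Agent.Lib.MP_89bcae_ag.El

open Pool.Agent.Lib.MP_89bcae_ag.Ze

variable {k F : Type} [Field k] [Field F] [Algebra k F] {p q : k[X]} {g : k[X][X]}

lemma smo_eval (A : F[X][X]) (Q P : F[X]) (b : F) :
    (A.eval₂ (compRingHom Q) P).eval b = (A.map (evalRingHom (Q.eval b))).eval (P.eval b) := by
  have h1 := hom_eval₂ A (compRingHom Q) (evalRingHom b) P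
  rw [coe_evalRingHom] at h1
  rw [h1, eval_map]
  congr 1
  refine RingHom.ext fun r => ?_
  rw [RingHom.comp_apply, coe_compRingHom_apply, coe_evalRingHom, coe_evalRingHom, eval_comp]

lemma smo_swap (A : F[X][X]) (r x : F) : (A.eval (C x)).eval r = (A.map (evalRingHom r)).eval x := by
  have h1 := hom_eval₂ A (RingHom.id F[X]) (evalRingHom r) (C x)
  rw [coe_evalRingHom, eval_C, RingHom.comp_id] at h1
  rw [eval_map, ← h1, eval₂_id]

/-- The composition of a polynomial with `R`, on the line. -/
lemma smo_comp (P Q S : F[X]) (R : F[X][X]) (hR : R.eval₂ (compRingHom Q) P = X) :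
    (S.eval₂ (C.comp C) R).eval₂ (compRingHom Q) P = S := by
  have h1 := hom_eval₂ S (C.comp C) (eval₂RingHom (compRingHom Q) P) R
  rw [coe_eval₂RingHom] at h1
  rw [h1, hR]
  have h2 : (eval₂RingHom (compRingHom Q) P).comp (C.comp C : F →+* F[X][X]) = (C : F →+* F[X]) := by
    refine RingHom.ext fun r => ?_
    rw [RingHom.comp_apply, RingHom.comp_apply, coe_eval₂RingHom, eval₂_C, coe_compRingHom_apply, C_comp]
  rw [h2, eval₂_C_X]

lemma smo_map (S : F[X]) (R : F[X][X]) (r : F) :
    (S.eval₂ (C.comp C) R).map (evalRingHom r) = S.comp (R.map (evalRingHom r)) := by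
  have h1 := hom_eval₂ S (C.comp C) (mapRingHom (evalRingHom r)) R
  rw [coe_mapRingHom] at h1
  rw [h1, comp]
  congr 1
  refine RingHom.ext fun c => ?_
  rw [RingHom.comp_apply, RingHom.comp_apply, coe_mapRingHom, map_C, coe_evalRingHom, eval_C]

lemma smo_evalC (S : F[X]) (R : F[X][X]) (x : F) :
    (S.eval₂ (C.comp C) R).eval (C x) = S.comp (R.eval (C x)) := by
  have h1 := hom_eval₂ S (C.comp C) (evalRingHom (C x)) R
  rw [coe_evalRingHom] at h1
  rw [h1, comp]
  congr 1
  refine RingHom.ext fun c => ?_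
  rw [RingHom.comp_apply, RingHom.comp_apply, coe_evalRingHom, eval_C]

lemma smo_dvd_t [NeZero q.natDegree] (h : IsLine p q g) {R : F[X][X]}
    (hR : R.eval₂ (compRingHom (pF F q)) (pF F p) = X) :
    gF F g ∣ C X - (pF F q).eval₂ (C.comp C) R := by
  refine gF_dvd h ?_
  rw [eval₂_sub, smo_comp _ _ _ _ hR, eval₂_C, coe_compRingHom_apply, X_comp, sub_self]

lemma smo_dvd_x [NeZero q.natDegree] (h : IsLine p q g) {R : F[X][X]}
    (hR : R.eval₂ (compRingHom (pF F q)) (pF F p) = X) :
    gF F g ∣ X - (pF F p).eval₂ (C.comp C) R := by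
  refine gF_dvd h ?_
  rw [eval₂_sub, smo_comp _ _ _ _ hR, eval₂_X, sub_self]

/-- Proof: evaluate the identity `gF_vanish h` at `s = b`: for `A : F[X][X]`,
`(A.eval₂ (compRingHom Q) P).eval b = (A.map (evalRingHom (Q.eval b))).eval (P.eval b)`. -/
theorem on_line (h : IsLine p q g) (b : F) :
    ((gF F g).map (evalRingHom ((pF F q).eval b))).eval ((pF F p).eval b) = 0 := by
  rw [← smo_eval, gF_vanish h, eval_zero]

/-- Every point `(r, x)` of the curve `g = 0` is `(q(b), p(b))` for some `b`. Proof: let `R` be given by `exists_invF`; the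
polynomials `C X - (pF F q).eval₂ (C.comp C) R` and `X - (pF F p).eval₂ (C.comp C) R` of `F[X][X]` (that is `t - q(R(t, x))`,
`x - p(R(t, x))`) vanish at `t = q(s)`, `x = p(s)`, so `g` divides them (`gF_dvd`). Evaluate at `(r, x)`: `b = R(r, x)`. -/
theorem of_zero [NeZero q.natDegree] (h : IsLine p q g) {r x : F}
    (h0 : ((gF F g).map (evalRingHom r)).eval x = 0) : ∃ b : F, (pF F q).eval b = r ∧ (pF F p).eval b = x := by
  obtain ⟨R, hR⟩ := exists_invF (F := F) h
  obtain ⟨A, hA⟩ := smo_dvd_t h hR
  obtain ⟨B, hB⟩ := smo_dvd_x h hR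
  refine ⟨(R.map (evalRingHom r)).eval x, ?_, ?_⟩
  · have h1 := congrArg (fun Z => (Z.map (evalRingHom r)).eval x) hA
    simp only [Polynomial.map_sub, Polynomial.map_mul, eval_sub, eval_mul, h0, zero_mul, smo_map, eval_comp, map_C,
      coe_evalRingHom, eval_X, eval_C] at h1
    exact (sub_eq_zero.mp h1).symm
  · have h1 := congrArg (fun Z => (Z.map (evalRingHom r)).eval x) hB
    simp only [Polynomial.map_sub, Polynomial.map_mul, eval_sub, eval_mul, h0, zero_mul, smo_map, eval_comp, map_X,
      eval_X] at h1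
    exact (sub_eq_zero.mp h1).symm

/-- The curve is smooth. Proof: as in `of_zero`, `t - q(R(t, x)) = g A`, `x - p(R(t, x)) = g B`. Differentiate with respect to `t` and to
`x` at the point `(q(b), p(b))`, where `g = 0` and `R = b`: if `g_t = g_x = 0` then `1 = q'(b) R_t`, `0 = q'(b) R_x`,
`0 = p'(b) R_t`, `1 = p'(b) R_x`, a contradiction. Here `g_x` is the first expression of the statement and `g_t` the second one;
use `(A.eval (C x)).eval t = (A.map (evalRingHom t)).eval x`, and that `A ↦ A.map (evalRingHom t)` and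
`A ↦ A.eval (C x)` are ring homomorphisms `F[X][X] →+* F[X]` (`mapRingHom (evalRingHom t)`, `evalRingHom (C x)`); the image of
`(pF F q).eval₂ (C.comp C) R` is `(pF F q).comp (image of R)`, whose derivative is given by `derivative_comp`. -/
theorem smooth [NeZero q.natDegree] (h : IsLine p q g) (b : F) :
    (derivative ((gF F g).map (evalRingHom ((pF F q).eval b)))).eval ((pF F p).eval b) ≠ 0 ∨
      (derivative ((gF F g).eval (C ((pF F p).eval b)))).eval ((pF F q).eval b) ≠ 0 := by
  by_contra hcon
  rw [not_or, not_not, not_not] at hcon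
  obtain ⟨hx, ht⟩ := hcon
  have h0 := on_line h b
  revert hx ht h0
  generalize (pF F q).eval b = r
  generalize (pF F p).eval b = x
  intro hx ht h0
  have h0' : ((gF F g).eval (C x)).eval r = 0 := by rw [smo_swap, h0]
  obtain ⟨R, hR⟩ := exists_invF (F := F) h
  obtain ⟨A, hA⟩ := smo_dvd_t h hR
  obtain ⟨B, hB⟩ := smo_dvd_x h hR
  have e1 := congrArg (fun Z => (derivative (Z.eval (C x))).eval r) hA
  have e2 := congrArg (fun Z => (derivative (Z.map (evalRingHom r))).eval x) hA
  have e4 := congrArg (fun Z => (derivative (Z.map (evalRingHom r))).eval x) hB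
  simp only [eval_sub, eval_mul, eval_C, smo_evalC, derivative_sub, derivative_X, derivative_comp, derivative_mul, eval_add, ht, h0',
    zero_mul, add_zero, eval_comp, eval_one] at e1
  simp only [Polynomial.map_sub, Polynomial.map_mul, map_C, coe_evalRingHom, eval_X, smo_map, derivative_sub, derivative_C,
    derivative_comp, derivative_mul, eval_sub, eval_add, eval_mul, hx, h0, zero_mul, add_zero, eval_comp, eval_zero,
    zero_sub, eval_neg, neg_eq_zero] at e2
  simp only [Polynomial.map_sub, Polynomial.map_mul, map_X, smo_map, derivative_sub, derivative_X,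
    derivative_comp, derivative_mul, eval_sub, eval_add, eval_mul, hx, h0, zero_mul, add_zero, eval_comp, eval_one] at e4
  rw [smo_swap] at e1
  rcases mul_eq_zero.mp e2 with h2 | h2
  · rw [h2, zero_mul, sub_zero] at e4
    exact one_ne_zero e4
  · rw [h2, mul_zero, sub_zero] at e1
    exact one_ne_zero e1

end Pool.Agent.Lib.MP_89bcae_ag.El
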