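import Mathlib
import Pool.Agent.Lib.MP_89bcae_ag.Xs.Ord
import Pool.Agent.Lib.MP_89bcae_ag.El.KerC
import Pool.Agent.Lib.MP_89bcae_ag.El.Smo

/-!
# The affine charts
-/

open Polynomial IsDedekindDomain

open scoped Classical

namespace Pool.Agent.Lib.MP_89bcae_ag.El

open Pool.Agent.Lib.MP_89bcae_ag.Ze

open Pool.Agent.Lib.MP_89bcae_ag.Zp (IsSmoothAt)

open Pool.Agent.Lib.MP_89bcae_ag.Xs (ord Or ord_eq_of_valuation ord_pow algebraMap_mem_Or valuation_lt_one)

variable {k F L : Type} [Field k] [Field F] [Algebra k F] [Field L] [Algebra F[X] L] [IsFractionRing F[X] L]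
  {p q : k[X]} {g : k[X][X]}

/-- The polynomial `x g(t, x)` in the coordinate `t = τ + r`. -/
noncomputable def chtPoly (F : Type) [Field F] [Algebra k F] (g : k[X][X]) (r : F) : F[X][X] :=
  (X * gF F g).map (compRingHom (X + C r))

/-- Proof: `(compRingHom (X + C r))` followed by `evalRingHom 0` is `evalRingHom r`. -/
theorem chtPoly_zero (g : k[X][X]) (r : F) :
    (chtPoly F g r).map (evalRingHom 0) = X * (gF F g).map (evalRingHom r) := by
  unfold chtPoly
  rw [Polynomial.map_map]
  have h1 : (evalRingHom (0 : F)).comp (compRingHom (X + C r)) = evalRingHom r := by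
    refine RingHom.ext fun y => ?_
    rw [RingHom.comp_apply, coe_compRingHom_apply, coe_evalRingHom, coe_evalRingHom, eval_comp, eval_add, eval_X,
      eval_C, zero_add]
  rw [h1, Polynomial.map_mul, map_X]

private lemma cht_natDegree (h : IsLine p q g) (r : F) :
    (X * (gF F g).map (evalRingHom r)).natDegree = q.natDegree + 1 := by
  have h1 : ((gF F g).map (evalRingHom r)).Monic := (gF_monic h).map _
  rw [monic_X.natDegree_mul h1, natDegree_X, (gF_monic h).natDegree_map, gF_natDegree h, add_comm]

private lemma cht_natDegree_poly (h : IsLine p q g) : (poly F L (surf g)).natDegree = q.natDegree + 1 := by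
  rw [poly_surf, monic_X.natDegree_mul (gL_monic h), natDegree_X, gL_natDegree h, add_comm]

omit [IsFractionRing F[X] L] in
private lemma cht_map (A : F[X][X]) (r : F) : (A.map (compRingHom (X + C r))).map
    (eval₂RingHom ((algebraMap F[X] L).comp C) (algebraMap F[X] L (X - C r))) = A.map (algebraMap F[X] L) := by
  rw [Polynomial.map_map]
  congr 1
  refine RingHom.ext fun y => ?_
  rw [RingHom.comp_apply, coe_compRingHom_apply, coe_eval₂RingHom, ← hom_eval₂]
  congr 1
  change (y.comp (X + C r)).comp (X - C r) = y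
  rw [comp_assoc, add_comp, X_comp, C_comp, sub_add_cancel, comp_X]

private lemma cht_deriv (A : F[X][X]) (r x : F) :
    (derivative ((A.map (compRingHom (X + C r))).eval (C x))).eval 0 = (derivative (A.eval (C x))).eval r := by
  have h1 : (A.map (compRingHom (X + C r))).eval (C x) = (A.eval (C x)).comp (X + C r) := by
    have h2 : (C x : F[X]) = compRingHom (X + C r) (C x) := by
      rw [coe_compRingHom_apply, C_comp]
    conv_lhs => rw [h2]
    rw [eval_map_apply, coe_compRingHom_apply]
  rw [h1, derivative_comp, eval_mul, eval_comp]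
  simp

/-- Compare `isChart_aff` in `Xm/Cht.lean`. Here `τ = t - r`, `ρ = 0`, `w = 1`, `z = 1`. -/
theorem isChart_aff (h : IsLine p q g) (r : F) :
    IsChart 2 F (poly F L (surf g)) (chtPoly F g r) (algebraMap F[X] L (X - C r)) 0 1 := by
  refine ⟨Or.inl ⟨r, rfl⟩, ?_, one_ne_zero, 1, one_ne_zero, ?_⟩
  · intro h0
    have h1 := cht_natDegree h r
    rw [← chtPoly_zero, h0, natDegree_zero] at h1
    omega
  · rw [C_0, C_1, one_mul, zero_add, comp_X, one_pow, C_1, one_mul]
    unfold chtPoly
    rw [cht_map, poly_surf, Polynomial.map_mul, map_X]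
    rfl

/-- Compare `even_pi0` in `Xm/Cht.lean`: the valuation ring `Or L r` of `F(s)` is centred at the point `(q(r), p(r))` of the
chart `chtPoly F g (q(r))`; the curve `x g = 0` is smooth there by `smooth h r`, `on_line h r` and since `p(r) ≠ 0`:
`(X g)_x = g + x g_x = p(r) g_x`, `(X g)_t = p(r) g_t` (and `IsSmoothAt` asks for nothing if the point is not on the curve).
The degrees of `(chtPoly F g _).map (evalRingHom 0)` and `poly F L (surf g)` are both `deg q + 1`, so `c = 0`. -/
theorem even_pi0 [NeZero q.natDegree] (h : IsLine p q g) {u : (AdjoinRoot (poly F L (surf g)))ˣ}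
    (hu : u ∈ unramified 2 F (poly F L (surf g))) {r : F} (hr : (pF F p).eval r ≠ 0) :
    Even (ord r (pi0 F L h u)) := by
  obtain ⟨c, hc, hcc⟩ := hu.2 _ _ 0 1 (isChart_aff h ((pF F q).eval r))
  have hc0 : c = 0 := hc (by rw [chtPoly_zero, cht_natDegree h, cht_natDegree_poly h])
  have halg : ∀ y : L, pi0 F L h (algebraMap L (AdjoinRoot (poly F L (surf g))) y) = ex F L q y := by
    intro y
    rw [AdjoinRoot.algebraMap_eq, ← AdjoinRoot.mk_C, pi0_mk, eval₂_C]
  have hroot : pi0 F L h (AdjoinRoot.root (poly F L (surf g))) = algebraMap F[X] L (pF F p) := by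
    rw [← AdjoinRoot.mk_X, pi0_mk, eval₂_X]
  have hcentre : IsCentre F (poly F L (surf g)) (pi0 F L h) (Or L r) (chtPoly F g ((pF F q).eval r))
      (algebraMap F[X] L (X - C ((pF F q).eval r))) 0 1 ((pF F p).eval r) := by
    refine ⟨fun c => ?_, ?_, ?_, ?_⟩
    · rw [halg, ex_algebraMap, C_comp]
      exact algebraMap_mem_Or r _
    · rw [halg, ex_algebraMap]
      apply valuation_lt_one
      rw [eval_comp, eval_sub, eval_X, eval_C, sub_self]
    · rw [map_zero, sub_zero, hroot, map_one, map_one, div_one, halg, ex_algebraMap, C_comp,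
        ← map_sub (algebraMap F[X] L)]
      apply valuation_lt_one
      rw [eval_sub, eval_C, sub_self]
    · intro _
      rcases smooth h r with h1 | h1
      · left
        rw [chtPoly_zero, derivative_mul, derivative_X, one_mul, eval_add, eval_mul, eval_X, on_line h r, zero_add]
        exact mul_ne_zero hr h1
      · right
        unfold chtPoly
        rw [cht_deriv, eval_mul, eval_X, derivative_mul, derivative_C, zero_mul, zero_add, eval_mul, eval_C]
        exact mul_ne_zero hr h1
  obtain ⟨v, hv⟩ := hcc L (pi0 F L h) (pi0_surjective h) (Or L r) _ hcentre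
  rw [hc0, zpow_zero, one_mul] at hv
  have hne : pi0 F L h u ≠ 0 := (u.isUnit.map (pi0 F L h)).ne_zero
  have h3 := ord_eq_of_valuation hne (pow_ne_zero 2 v.ne_zero) hv
  rw [h3, ord_pow]
  exact (even_two_mul (ord r (v : L)))

/-- Compare `even_pi1` in `Xm/Cht.lean`: the valuation ring `Or L r` of `F(t)` is centred at the point `(r, 0)` of the chart
`chtPoly F g r`, and `(X g)_x = g(r, 0) ≠ 0` there. -/
theorem even_pi1 (h : IsLine p q g) {u : (AdjoinRoot (poly F L (surf g)))ˣ}
    (hu : u ∈ unramified 2 F (poly F L (surf g))) {r : F} (hr : ((gF F g).map (evalRingHom r)).eval 0 ≠ 0) :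
    Even (ord r (pi1 F L g u)) := by
  obtain ⟨c, hc, hcc⟩ := hu.2 _ _ 0 1 (isChart_aff h r)
  have hc0 : c = 0 := hc (by rw [chtPoly_zero, cht_natDegree h, cht_natDegree_poly h])
  have halg : ∀ y : L, pi1 F L g (algebraMap L (AdjoinRoot (poly F L (surf g))) y) = y := by
    intro y
    rw [AdjoinRoot.algebraMap_eq, ← AdjoinRoot.mk_C, pi1_mk, eval_C]
  have hroot : pi1 F L g (AdjoinRoot.root (poly F L (surf g))) = 0 := by
    rw [← AdjoinRoot.mk_X, pi1_mk, eval_X]
  have hcentre : IsCentre F (poly F L (surf g)) (pi1 F L g) (Or L r) (chtPoly F g r)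
      (algebraMap F[X] L (X - C r)) 0 1 0 := by
    refine ⟨fun c => ?_, ?_, ?_, ?_⟩
    · rw [halg]
      exact algebraMap_mem_Or r _
    · rw [halg]
      apply valuation_lt_one
      rw [eval_sub, eval_X, eval_C, sub_self]
    · rw [map_zero, sub_zero, hroot, zero_div, halg, C_0, map_zero, sub_zero, map_zero]
      exact zero_lt_one
    · intro _
      left
      rw [chtPoly_zero, derivative_mul, derivative_X, one_mul, eval_add, eval_mul, eval_X, zero_mul, add_zero]
      exact hr
  obtain ⟨v, hv⟩ := hcc L (pi1 F L g) (pi1_surjective g) (Or L r) _ hcentre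
  rw [hc0, zpow_zero, one_mul] at hv
  have hne : pi1 F L g u ≠ 0 := (u.isUnit.map (pi1 F L g)).ne_zero
  have h3 := ord_eq_of_valuation hne (pow_ne_zero 2 v.ne_zero) hv
  rw [h3, ord_pow]
  exact (even_two_mul (ord r (v : L)))

end Pool.Agent.Lib.MP_89bcae_ag.El
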