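import Mathlib
import Pool.Agent.Lib.MP_89bcae_ag.El.Defs

/-!
# The roots of `q(S) = t`
-/

open Polynomial IsDedekindDomain

open scoped Classical

namespace Pool.Agent.Lib.MP_89bcae_ag.El

open Pool.Agent.Lib.MP_89bcae_ag.Ze

section

variable {F L Ω : Type} [Field F] [Field L] [Algebra F[X] L] [Field Ω]

/-- The homomorphism `F → Ω`. -/
noncomputable def kap (F : Type) [Field F] [Algebra F[X] L] (ι : L →+* Ω) : F →+* Ω := ι.comp ((algebraMap F[X] L).comp C)

/-- The roots in `Ω` of the polynomial `q(S) - t`. -/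
noncomputable def RS {k : Type} [Field k] (F : Type) [Field F] [Algebra k F] [Algebra F[X] L] (ι : L →+* Ω) (q : k[X]) :
    Multiset Ω :=
  ((pF F q).map (kap F ι) - C (ι (algebraMap F[X] L X))).roots

end

variable {k F L Ω : Type} [Field k] [Field F] [Algebra k F] [Field L] [Algebra F[X] L] [IsFractionRing F[X] L] [Field Ω]
  {ι : L →+* Ω} {p q : k[X]} {g : k[X][X]}

private lemma roota_natDegree [NeZero q.natDegree] :
    ((pF F q).map (kap F ι) - C (ι (algebraMap F[X] L X))).natDegree = q.natDegree := by
  rw [natDegree_sub_C, natDegree_map, natDegree_pF]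

private lemma roota_ne_zero [NeZero q.natDegree] :
    (pF F q).map (kap F ι) - C (ι (algebraMap F[X] L X)) ≠ 0 := by
  intro h
  have h1 := roota_natDegree (F := F) (ι := ι) (q := q)
  rw [h, natDegree_zero] at h1
  exact NeZero.ne q.natDegree h1.symm

/-- Proof: `mem_roots` (the polynomial has degree `deg q > 0`, it is not `0`), `eval_map`. -/
theorem RS_mem [NeZero q.natDegree] {σ : Ω} :
    σ ∈ RS F ι q ↔ (pF F q).eval₂ (kap F ι) σ = ι (algebraMap F[X] L X) := by
  unfold RS
  rw [mem_roots (roota_ne_zero (ι := ι)), IsRoot.def, eval_sub, eval_C, eval_map, sub_eq_zero]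

/-- Proof: the polynomial has degree `deg q` (`natDegree_sub_C`, `natDegree_map`, `natDegree_pF`), and `Ω` is algebraically closed
(`splits_iff_card_roots`, or `IsAlgClosed.card_roots_eq_natDegree`). -/
theorem RS_card [IsAlgClosed Ω] [NeZero q.natDegree] : Multiset.card (RS F ι q) = q.natDegree := by
  unfold RS
  rw [IsAlgClosed.card_roots_eq_natDegree, roota_natDegree]

private lemma roota_eval (r : F[X]) : r.eval₂ (kap F ι) (ι (algebraMap F[X] L X)) = ι (algebraMap F[X] L r) := by
  have h1 : (eval₂RingHom (kap F ι) (ι (algebraMap F[X] L X))) = ι.comp (algebraMap F[X] L) := by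
    refine Polynomial.ringHom_ext (fun a => ?_) ?_
    · rw [coe_eval₂RingHom, eval₂_C]
      rfl
    · rw [coe_eval₂RingHom, eval₂_X]
      rfl
  exact RingHom.congr_fun h1 r

/-- If `P(σ) = 0` for a root `σ` of `q(S) = t`, and a polynomial `P` over `F`, then `P = 0`. Proof: otherwise `σ` is algebraic over
`F`, and `t = q(σ)` too: but `F[X] → L → Ω` is injective. (For instance: the resultant, or `Algebra.IsAlgebraic`: with the algebra
structure `kap F ι` on `Ω`, `σ` is algebraic, so `aeval σ Q = ι t` is algebraic (`IsAlgebraic` of a polynomial in an algebraic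
element), while `ι t` is transcendental since `aeval (ι t) r = ι (algebraMap F[X] L r)`.) -/
theorem RS_transc [NeZero q.natDegree] {σ : Ω} (hσ : σ ∈ RS F ι q) {P : F[X]} (hP : P.eval₂ (kap F ι) σ = 0) : P = 0 := by
  rw [RS_mem] at hσ
  letI : Algebra F Ω := (kap F ι).toAlgebra
  have h1 : ∀ (r : F[X]) (z : Ω), aeval z r = r.eval₂ (kap F ι) z := fun r z => rfl
  have h2 : Transcendental F (ι (algebraMap F[X] L X)) := by
    rw [transcendental_iff]
    intro r hr
    rw [h1, roota_eval] at hr
    have h3 : algebraMap F[X] L r = 0 := (map_eq_zero ι).1 hr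
    exact (map_eq_zero_iff _ (IsFractionRing.injective F[X] L)).1 h3
  have h4 : Transcendental F (aeval σ (pF F q)) := by
    rw [h1, hσ]
    exact h2
  have h5 : Transcendental F σ := (transcendental_aeval_iff.1 h4).1
  rw [transcendental_iff] at h5
  exact h5 P (by rw [h1, hP])

/-- Proof: `nodup_roots` of a separable polynomial (or `nodup_iff_count_le_one`, `count_roots`): a multiple root `σ` satisfies
`q'(σ) = 0`, and so the derivative of `pF F q` is `0` by `RS_transc`; but it is `(derivative q).map _ ≠ 0`. -/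
theorem RS_nodup [NeZero q.natDegree] (hd : derivative q ≠ 0) : (RS F ι q).Nodup := by
  have hd' : derivative (pF F q) ≠ 0 := by
    unfold pF
    rw [derivative_map, Ne, Polynomial.map_eq_zero]
    exact hd
  rw [Multiset.nodup_iff_count_le_one]
  intro σ
  by_contra hcon
  have hmem : σ ∈ RS F ι q := Multiset.count_pos.1 (by omega)
  have hcon2 : 1 < ((pF F q).map (kap F ι) - C (ι (algebraMap F[X] L X))).rootMultiplicity σ := by
    rw [← count_roots]
    unfold RS at hcon
    omega
  have h2 := (one_lt_rootMultiplicity_iff_isRoot (roota_ne_zero (F := F) (ι := ι) (q := q))).1 hcon2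
  have h3 := h2.2
  rw [derivative_sub, derivative_C, sub_zero, derivative_map, IsRoot.def, eval_map] at h3
  exact hd' (RS_transc hmem h3)

/-- The homomorphism `L = F(s) → Ω` which maps `s` to `σ`. Proof: `IsFractionRing.lift` of the injective (`RS_transc`) homomorphism
`eval₂RingHom (kap F ι) σ`; the second formula is true on `F[X]` (`ex_algebraMap`, `eval₂_comp`, `RS_mem`), so on `L`
(`IsLocalization.ringHom_ext`). -/
theorem exists_eval [NeZero q.natDegree] {σ : Ω} (hσ : σ ∈ RS F ι q) :
    ∃ e : L →+* Ω, (∀ P : F[X], e (algebraMap F[X] L P) = P.eval₂ (kap F ι) σ) ∧ ∀ x : L, e (ex F L q x) = ι x := by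
  have hinj : Function.Injective (eval₂RingHom (kap F ι) σ) := by
    rw [injective_iff_map_eq_zero]
    intro r hr
    exact RS_transc hσ hr
  have h1 : ∀ P : F[X], (IsFractionRing.lift (K := L) hinj) (algebraMap F[X] L P) = P.eval₂ (kap F ι) σ := fun P =>
    IsFractionRing.lift_algebraMap hinj P
  refine ⟨IsFractionRing.lift (K := L) hinj, h1, ?_⟩
  have h2 : (IsFractionRing.lift (K := L) hinj).comp (ex F L q) = ι := by
    refine IsLocalization.ringHom_ext (nonZeroDivisors F[X]) (RingHom.ext fun r => ?_)
    rw [RingHom.comp_apply, RingHom.comp_apply, RingHom.comp_apply, ex_algebraMap, h1, eval₂_comp, RS_mem.1 hσ, roota_eval]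
  exact fun x => RingHom.congr_fun h2 x

end Pool.Agent.Lib.MP_89bcae_ag.El
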