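import Mathlib
import Pool.Agent.Lib.MP_89bcae_ag.El.RootA
import Pool.Agent.Lib.MP_89bcae_ag.El.KerB

/-!
# The roots of `g`
-/

open Polynomial IsDedekindDomain

open scoped Classical

namespace Pool.Agent.Lib.MP_89bcae_ag.El

open Pool.Agent.Lib.MP_89bcae_ag.Ze

variable {k F L Ω : Type} [Field k] [Field F] [Algebra k F] [Field L] [Algebra F[X] L] [IsFractionRing F[X] L] [Field Ω]
  {ι : L →+* Ω} {p q : k[X]} {g : k[X][X]}

/-- The elements `p(σ)` are roots of `g`. Proof: apply the homomorphism `e` of `exists_eval` to `gL_vanish h`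
(`hom_eval₂`: `e ∘ ex = ι`). -/
theorem eval₂_root [NeZero q.natDegree] (h : IsLine p q g) {σ : Ω} (hσ : σ ∈ RS F ι q) :
    ((gL F L g).map ι).eval ((pF F p).eval₂ (kap F ι) σ) = 0 := by
  obtain ⟨e, he1, he2⟩ := exists_eval hσ
  have h1 : e.comp (ex F L q) = ι := RingHom.ext he2
  have h2 := congrArg e (gL_vanish (F := F) (L := L) h)
  rw [map_zero, hom_eval₂, h1, he1] at h2
  rw [eval_map]
  exact h2

theorem rkb_param [NeZero q.natDegree] {R : F[X][X]}
    (hR : R.eval₂ (compRingHom (pF F q)) (pF F p) = X) {σ : Ω} (hσ : σ ∈ RS F ι q) :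
    σ = (R.map (algebraMap F[X] L)).eval₂ ι ((pF F p).eval₂ (kap F ι) σ) := by
  obtain ⟨e, he1, he2⟩ := exists_eval hσ
  have h1 : e.comp (ex F L q) = ι := RingHom.ext he2
  have h2 := congrArg e (eval₂_ex_map (L := L) (q := q) R (pF F p))
  rw [hR, hom_eval₂, h1, he1, he1, eval₂_X] at h2
  exact h2.symm

/-- The element `σ` is determined by `p(σ)`. Proof: apply `e` of `exists_eval`, for the two roots, to the identity
`R(q(s), p(s)) = s` (`exists_invF`, `eval₂_ex_map`): `σ = R(t, p(σ))`. -/
theorem root_inj [NeZero q.natDegree] (h : IsLine p q g) {σ σ' : Ω} (hσ : σ ∈ RS F ι q) (hσ' : σ' ∈ RS F ι q)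
    (he : (pF F p).eval₂ (kap F ι) σ = (pF F p).eval₂ (kap F ι) σ') : σ = σ' := by
  obtain ⟨R, hR⟩ := exists_invF (F := F) h
  rw [rkb_param hR hσ, he, ← rkb_param hR hσ']

/-- The factors of `g`. Proof: the polynomial `g` is monic of degree `m`, the `m` elements `p(σ)` are distinct
(`RS_nodup`, `root_inj`, `RS_card`) roots of it, so they are all the roots
(`Multiset.eq_of_le_of_card_le`, `Multiset.le_iff_subset`, `card_roots'`), and
`IsAlgClosed.splits`, `eq_prod_roots_of_monic`. -/
theorem gL_map [IsAlgClosed Ω] [NeZero q.natDegree] (h : IsLine p q g) (hd : derivative q ≠ 0) :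
    (gL F L g).map ι = ((RS F ι q).map fun σ => X - C ((pF F p).eval₂ (kap F ι) σ)).prod := by
  have hm : ((gL F L g).map ι).Monic := (gL_monic h).map ι
  have hroots : (RS F ι q).map (fun σ => (pF F p).eval₂ (kap F ι) σ) = ((gL F L g).map ι).roots := by
    refine Multiset.eq_of_le_of_card_le ?_ ?_
    · rw [Multiset.le_iff_subset]
      · intro x hx
        obtain ⟨σ, hσ, rfl⟩ := Multiset.mem_map.1 hx
        exact (mem_roots hm.ne_zero).2 (eval₂_root h hσ)
      · exact Multiset.Nodup.map_on (fun σ hσ σ' hσ' he => root_inj h hσ hσ' he) (RS_nodup hd)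
    · rw [Multiset.card_map, RS_card]
      refine (card_roots' _).trans ?_
      rw [(gL_monic h).natDegree_map, gL_natDegree h]
  have h1 := (IsAlgClosed.splits ((gL F L g).map ι)).eq_prod_roots_of_monic hm
  rw [← hroots, Multiset.map_map] at h1
  exact h1

/-- The branch curve. Proof: `X * g` is monic of degree `m + 1`, which is odd; over an algebraic closure `Ω` of `L`, with
`ι = algebraMap L Ω`, its roots are `0` and the `p(σ)` (`gL_map`), which are distinct (`root_inj`, `RS_nodup`) and not `0`
(`RS_transc`, `pF_ne_zero`), so the polynomial is separable (`nodup_roots_iff_of_splits`, `separable_map`), or: `g` is separable by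
`gL_map` and `separable_X.mul` with `gL_eval_zero`. -/
theorem isBranch_surf [NeZero q.natDegree] (h : IsLine p q g) (hd : derivative q ≠ 0) (hm : Even q.natDegree) (hp : p ≠ 0) :
    IsBranch 2 F L (surf g) := by
  have hsep : (gL F L g).Separable := by
    rw [← separable_map (algebraMap L (AlgebraicClosure L))]
    have hm : ((gL F L g).map (algebraMap L (AlgebraicClosure L))).Monic := (gL_monic h).map _
    rw [← nodup_roots_iff_of_splits hm.ne_zero (IsAlgClosed.splits _)]
    rw [gL_map (F := F) (ι := algebraMap L (AlgebraicClosure L)) h hd]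
    have e : ((RS F (algebraMap L (AlgebraicClosure L)) q).map
        fun σ => X - C ((pF F p).eval₂ (kap F (algebraMap L (AlgebraicClosure L))) σ)) =
        ((RS F (algebraMap L (AlgebraicClosure L)) q).map
          fun σ => (pF F p).eval₂ (kap F (algebraMap L (AlgebraicClosure L))) σ).map
          fun a => X - C a := by
      rw [Multiset.map_map]
      rfl
    rw [e, roots_multiset_prod_X_sub_C]
    exact Multiset.Nodup.map_on (fun σ hσ σ' hσ' he => root_inj h hσ hσ' he) (RS_nodup hd)
  refine ⟨?_, ?_, ?_⟩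
  · exact monic_X.mul h.monic
  · unfold surf
    rw [monic_X.natDegree_mul h.monic, natDegree_X, h.degree]
    rw [Nat.coprime_comm, Nat.coprime_two_left]
    exact Even.one_add hm
  · rw [poly_surf]
    refine separable_X.mul hsep ?_
    rw [irreducible_X.coprime_iff_not_dvd, X_dvd_iff, coeff_zero_eq_eval_zero]
    exact gL_eval_zero h hp

end Pool.Agent.Lib.MP_89bcae_ag.El
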