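import Mathlib
import Pool.Agent.Lib.MP_89bcae_ag.El.RootB

/-!
# The degrees in `t` of the coefficients of `g`
-/

open Polynomial IsDedekindDomain

open scoped Classical

namespace Pool.Agent.Lib.MP_89bcae_ag.El

open Pool.Agent.Lib.MP_89bcae_ag.Ze

section

variable {F : Type} [Field F]

/-- The expansion of a polynomial with respect to the basis `1, s, …` over `F[Q(s)]`. -/
theorem deg_expand (Q : F[X]) (hQ : Q.natDegree ≠ 0) (d : ℕ) : ∀ r : F[X], r.natDegree ≤ d →
    ∃ c : Fin Q.natDegree → F[X], r = ∑ j, (c j).comp Q * X ^ (j : ℕ) ∧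
      ∀ j, c j ≠ 0 → Q.natDegree * (c j).natDegree + (j : ℕ) ≤ r.natDegree := by
  have hQ0 : Q ≠ 0 := by
    rintro rfl
    exact hQ natDegree_zero
  have hlow : ∀ b : F[X], b.degree < Q.degree →
      b = ∑ j : Fin Q.natDegree, C (b.coeff j) * X ^ (j : ℕ) := by
    intro b hb
    by_cases hb0 : b = 0
    · rw [hb0]
      simp
    · have h1 : b.natDegree < Q.natDegree := natDegree_lt_natDegree hb0 hb
      rw [Fin.sum_univ_eq_sum_range (fun j => C (b.coeff j) * X ^ j) Q.natDegree]
      exact b.as_sum_range_C_mul_X_pow' h1
  induction d with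
  | zero =>
    intro r hr
    have hr0 : r.natDegree = 0 := Nat.le_zero.1 hr
    refine ⟨fun j => C (r.coeff j), ?_, ?_⟩
    · have hb : r.degree < Q.degree := by
        rw [degree_eq_natDegree hQ0]
        refine lt_of_le_of_lt degree_le_natDegree ?_
        rw [hr0]
        exact_mod_cast Nat.pos_of_ne_zero hQ
      simp only [C_comp]
      exact hlow r hb
    · intro j hj
      rw [natDegree_C, mul_zero, zero_add]
      exact le_natDegree_of_ne_zero (fun hc => hj (by show C (r.coeff (j : ℕ)) = 0; rw [hc, C_0]))
  | succ d ih =>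
    intro r hr
    by_cases hlt : r.degree < Q.degree
    · refine ⟨fun j => C (r.coeff j), ?_, ?_⟩
      · simp only [C_comp]
        exact hlow r hlt
      · intro j hj
        rw [natDegree_C, mul_zero, zero_add]
        exact le_natDegree_of_ne_zero (fun hc => hj (by show C (r.coeff (j : ℕ)) = 0; rw [hc, C_0]))
    · have hle : Q.degree ≤ r.degree := not_lt.1 hlt
      have hr0 : r ≠ 0 := by
        rintro rfl
        rw [degree_zero, le_bot_iff, degree_eq_bot] at hle
        exact hQ0 hle
      have hdeg := degree_add_div hQ0 hle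
      have ha0 : r / Q ≠ 0 := by
        intro h0
        rw [h0, degree_zero, WithBot.add_bot] at hdeg
        exact hr0 (degree_eq_bot.1 hdeg.symm)
      have hnat : Q.natDegree + (r / Q).natDegree = r.natDegree := by
        rw [degree_eq_natDegree hQ0, degree_eq_natDegree ha0, degree_eq_natDegree hr0] at hdeg
        exact_mod_cast hdeg
      obtain ⟨c, hc, hcd⟩ := ih (r / Q) (by omega)
      have hmod : (r % Q).degree < Q.degree := EuclideanDomain.mod_lt r hQ0
      refine ⟨fun j => X * c j + C ((r % Q).coeff j), ?_, ?_⟩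
      · have h1 : ∀ j : Fin Q.natDegree, (X * c j + C ((r % Q).coeff j)).comp Q * X ^ (j : ℕ) =
            Q * ((c j).comp Q * X ^ (j : ℕ)) + C ((r % Q).coeff j) * X ^ (j : ℕ) := by
          intro j
          rw [add_comp, mul_comp, X_comp, C_comp]
          ring
        rw [Finset.sum_congr rfl fun j _ => h1 j, Finset.sum_add_distrib, ← Finset.mul_sum, ← hc,
          ← hlow _ hmod]
        exact (EuclideanDomain.div_add_mod r Q).symm
      · intro j _
        have hj := j.2
        by_cases hcj : c j = 0
        · have : X * c j + C ((r % Q).coeff j) = C ((r % Q).coeff (j : ℕ)) := by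
            rw [hcj, mul_zero, zero_add]
          show Q.natDegree * (X * c j + C ((r % Q).coeff (j : ℕ))).natDegree + (j : ℕ) ≤ r.natDegree
          rw [this, natDegree_C]
          omega
        · have h2 := hcd j hcj
          have h3 : (X * c j + C ((r % Q).coeff (j : ℕ))).natDegree ≤ 1 + (c j).natDegree := by
            refine (natDegree_add_le _ _).trans (max_le ?_ ?_)
            · exact natDegree_mul_le.trans (add_le_add natDegree_X_le le_rfl)
            · rw [natDegree_C]
              exact Nat.zero_le _
          calc Q.natDegree * (X * c j + C ((r % Q).coeff (j : ℕ))).natDegree + (j : ℕ)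
              ≤ Q.natDegree * (1 + (c j).natDegree) + (j : ℕ) :=
                Nat.add_le_add_right (Nat.mul_le_mul_left _ h3) _
            _ = Q.natDegree + (Q.natDegree * (c j).natDegree + (j : ℕ)) := by ring
            _ ≤ r.natDegree := by omega

/-- `t ^ i x ^ j` has weight `i + e j`; all monomials of `G` have weight at most `w`. -/
def deg_W (e w : ℕ) (G : F[X][X]) : Prop := ∀ j i, w < i + e * j → (G.coeff j).coeff i = 0

theorem deg_W_mul {e w w' : ℕ} {G H : F[X][X]} (hG : deg_W e w G) (hH : deg_W e w' H) :
    deg_W e (w + w') (G * H) := by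
  intro j i hij
  rw [coeff_mul, finsetSum_coeff]
  refine Finset.sum_eq_zero fun x hx => ?_
  rw [coeff_mul]
  refine Finset.sum_eq_zero fun y hy => ?_
  have h1 := Finset.HasAntidiagonal.mem_antidiagonal.1 hx
  have h2 := Finset.HasAntidiagonal.mem_antidiagonal.1 hy
  by_cases h : w < y.1 + e * x.1
  · rw [hG x.1 y.1 h, zero_mul]
  · have h3 : w' < y.2 + e * x.2 := by
      have h4 : i + e * j = (y.1 + e * x.1) + (y.2 + e * x.2) := by
        rw [← h1, ← h2]
        ring
      omega
    rw [hH x.2 y.2 h3, mul_zero]

theorem deg_W_prod {ι : Type} (e : ℕ) (s : Finset ι) (f : ι → F[X][X])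
    (hf : ∀ i ∈ s, deg_W e e (f i)) : deg_W e (s.card * e) (∏ i ∈ s, f i) := by
  induction s using Finset.induction_on with
  | empty =>
    intro j i hij
    rw [Finset.prod_empty, coeff_one]
    split_ifs with h0
    · subst h0
      rw [coeff_one, if_neg]
      intro h
      subst h
      simp at hij
    · simp
  | insert a s ha ih =>
    rw [Finset.prod_insert ha, Finset.card_insert_of_notMem ha, add_mul, one_mul, add_comm]
    exact deg_W_mul (hf a (Finset.mem_insert_self a s))
      (ih fun i hi => hf i (Finset.mem_insert_of_mem hi))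

theorem deg_W_det {m e : ℕ} (A : Matrix (Fin m) (Fin m) F[X][X])
    (hA : ∀ i j, deg_W e e (A i j)) : deg_W e (m * e) A.det := by
  intro j i hij
  rw [Matrix.det_apply, finsetSum_coeff, finsetSum_coeff]
  refine Finset.sum_eq_zero fun σ _ => ?_
  have h := deg_W_prod e Finset.univ (fun i => A (σ i) i) (fun i _ => hA (σ i) i)
  rw [Finset.card_univ, Fintype.card_fin] at h
  have h1 := h j i hij
  rcases Int.units_eq_one_or (Equiv.Perm.sign σ) with hs | hs
  · rw [hs, one_smul]
    exact h1
  · rw [hs, Units.neg_smul, one_smul, coeff_neg, coeff_neg, h1, neg_zero]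

theorem deg_W_char {m e : ℕ} (M : Matrix (Fin m) (Fin m) F[X]) (hM : ∀ i j, (M i j).natDegree ≤ e)
    (i j : Fin m) : deg_W e e (M.charmatrix i j) := by
  intro b a hab
  have h0 : ∀ c, ((C (M i j) : F[X][X]).coeff b).coeff c = if b = 0 then (M i j).coeff c else 0 := by
    intro c
    rw [coeff_C]
    split_ifs <;> simp
  have hC : ((C (M i j) : F[X][X]).coeff b).coeff a = 0 := by
    rw [h0]
    split_ifs with hb
    · subst hb
      exact coeff_eq_zero_of_natDegree_lt (lt_of_le_of_lt (hM i j) (by simpa using hab))
    · rfl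
  by_cases hij : i = j
  · subst hij
    rw [Matrix.charmatrix_apply_eq, coeff_sub, coeff_sub, hC, sub_zero, coeff_X]
    split_ifs with h1
    · rw [coeff_one, if_neg]
      intro ha
      subst ha h1
      omega
    · simp
  · rw [Matrix.charmatrix_apply_ne _ _ _ hij, coeff_neg, coeff_neg, hC, neg_zero]

/-- the coefficient of `t ^ (m e)` of the determinant of a matrix with entries of degree `≤ e` -/
theorem deg_coeff_det {m e : ℕ} (M : Matrix (Fin m) (Fin m) F[X])
    (hM : ∀ i j, (M i j).natDegree ≤ e) :
    M.det.coeff (m * e) = (Matrix.of fun i j => (M i j).coeff e).det := by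
  rw [Matrix.det_apply, Matrix.det_apply, finsetSum_coeff]
  refine Finset.sum_congr rfl fun σ _ => ?_
  have h := coeff_prod_of_natDegree_le (s := (Finset.univ : Finset (Fin m)))
    (fun i => M (σ i) i) e (fun i _ => hM (σ i) i)
  rw [Finset.card_univ, Fintype.card_fin] at h
  rcases Int.units_eq_one_or (Equiv.Perm.sign σ) with hs | hs
  · rw [hs, one_smul, one_smul, h]
    rfl
  · rw [hs, Units.neg_smul, Units.neg_smul, one_smul, one_smul, coeff_neg, h]
    rfl

/-- The matrix of the multiplication by `P` in the basis `1, s, …` over `F[Q(s)]`. -/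
theorem deg_matrix (Q P : F[X]) (hQ : Q.natDegree ≠ 0) {e : ℕ} (hP : P.natDegree = e * Q.natDegree) :
    ∃ M : Matrix (Fin Q.natDegree) (Fin Q.natDegree) F[X],
      (∀ i : Fin Q.natDegree, X ^ (i : ℕ) * P = ∑ j, (M i j).comp Q * X ^ (j : ℕ)) ∧
      (∀ i j, (M i j).natDegree ≤ e) ∧ (∀ i j, i < j → (M i j).coeff e = 0 ∨ e = 0) ∧
      (e ≠ 0 → ∀ i, (M i i).coeff e ≠ 0) := by
  choose M hM hMd using fun i : Fin Q.natDegree =>
    deg_expand Q hQ (X ^ (i : ℕ) * P).natDegree (X ^ (i : ℕ) * P) le_rfl
  have hXP : ∀ i : Fin Q.natDegree, (X ^ (i : ℕ) * P).natDegree ≤ i + e * Q.natDegree := by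
    intro i
    refine natDegree_mul_le.trans ?_
    rw [natDegree_X_pow, hP]
  have hle : ∀ i j, (M i j).natDegree ≤ e := by
    intro i j
    by_cases h0 : M i j = 0
    · rw [h0, natDegree_zero]
      exact Nat.zero_le _
    · have h1 := (hMd i j h0).trans (hXP i)
      have h2 := i.2
      by_contra hc
      push Not at hc
      have h3 : Q.natDegree * (e + 1) ≤ Q.natDegree * (M i j).natDegree := Nat.mul_le_mul_left _ hc
      have h4 : Q.natDegree * (e + 1) = e * Q.natDegree + Q.natDegree := by ring
      omega
  have hlt : ∀ i j, i < j → (M i j) ≠ 0 → (M i j).natDegree < e := by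
    intro i j hij h0
    have h1 := (hMd i j h0).trans (hXP i)
    have h2 : (i : ℕ) < j := hij
    by_contra hc
    push Not at hc
    have h3 : Q.natDegree * e ≤ Q.natDegree * (M i j).natDegree := Nat.mul_le_mul_left _ hc
    have h4 : Q.natDegree * e = e * Q.natDegree := mul_comm _ _
    omega
  refine ⟨M, hM, hle, ?_, ?_⟩
  · intro i j hij
    left
    by_cases h0 : M i j = 0
    · rw [h0, coeff_zero]
    · exact coeff_eq_zero_of_natDegree_lt (hlt i j hij h0)
  · intro he i hc
    have hP0 : P ≠ 0 := by
      rintro rfl
      rw [natDegree_zero] at hP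
      exact mul_ne_zero he hQ hP.symm
    have h1 := congrArg (fun r : F[X] => r.coeff (i + e * Q.natDegree)) (hM i)
    rw [add_comm (i : ℕ), coeff_X_pow_mul, ← hP, finsetSum_coeff] at h1
    have h2 : P.coeff P.natDegree ≠ 0 := by
      rw [coeff_natDegree]
      exact leadingCoeff_ne_zero.2 hP0
    apply h2
    rw [h1]
    refine Finset.sum_eq_zero fun j _ => ?_
    by_cases h0 : M i j = 0
    · rw [h0, zero_comp, zero_mul, coeff_zero]
    · apply coeff_eq_zero_of_natDegree_lt
      have h3 : ((M i j).comp Q * X ^ (j : ℕ)).natDegree ≤ Q.natDegree * (M i j).natDegree + j := by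
        refine natDegree_mul_le.trans ?_
        rw [natDegree_comp, natDegree_X_pow, mul_comm]
      refine lt_of_le_of_lt h3 ?_
      rw [hP]
      have h5 := (hMd i j h0).trans (hXP i)
      have hi := i.2
      have hj := j.2
      by_cases hij : j = i
      · subst hij
        have h6 : (M j j).natDegree < e := by
          rcases (hle j j).lt_or_eq with h | h
          · exact h
          · exfalso
            have : (M j j).leadingCoeff = 0 := by
              rw [leadingCoeff, h]
              exact hc
            exact h0 (leadingCoeff_eq_zero.1 this)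
        have h7 : Q.natDegree * (M j j).natDegree < Q.natDegree * e :=
          Nat.mul_lt_mul_of_pos_left h6 (Nat.pos_of_ne_zero hQ)
        have h8 : Q.natDegree * e = e * Q.natDegree := mul_comm _ _
        omega
      · rcases h5.lt_or_eq with h | h
        · omega
        · exfalso
          have h9 := congrArg (fun z => z % Q.natDegree) h
          rw [Nat.mul_add_mod, Nat.mod_eq_of_lt hj, Nat.add_mul_mod_self_right,
            Nat.mod_eq_of_lt hi] at h9
          exact hij (Fin.ext h9)

end

variable {k F : Type} [Field k] [Field F] [Algebra k F] {p q : k[X]} {g : k[X][X]}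

/-- If `deg p = e deg q` then the coefficient `g_j(t)` of `x ^ j` in `g` has degree at most `(deg q - j) e`, and the
degree of `g(t, 0)` is `e deg q`. (It is enough to prove this for one `L`, `Ω`: `L = RatFunc F`, `Ω = AlgebraicClosure L`.)
Proof 1: by `gL_map`, `g(t, x) = ∏ (x - p(σ))` over the roots `σ` of `q(S) = t`. Let `A` be the valuation ring at infinity of
`F(t)` (it contains `F` and `1 / t` is in its maximal ideal) and `O` a valuation ring of `Ω` which dominates it
(`LocalSubring.exists_le_valuationSubring`), with valuation `v`: `v c = 1` for the constants `c ≠ 0`, `v t > 1`. From `q(σ) = t` we get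
`v σ > 1` and `v (t) = v (q(σ)) = (v σ) ^ deg q`, `v (p(σ)) = (v σ) ^ deg p = (v t) ^ e`. So the `y σ = p(σ) / t ^ e` are units of `O`,
`t ^ (-e m) g(t, t ^ e Y) = ∏ (Y - y σ)` has its coefficients in `O`, that is `v (g_j(t)) ≤ (v t) ^ (e (m - j))`, with
equality for `j = 0`; and `v (r(t)) = (v t) ^ (deg r)` for the nonzero polynomials `r`.
Proof 2 (without valuations): in the basis `1, s, .., s ^ (m - 1)` of `F[s]` over `F[q(s)]` the multiplication by `p(s)` has a matrix
`M`, with entries in `F[t]`: `s ^ i p(s) = ∑ M i j (q(s)) s ^ j`, so `m deg (M i j) + j ≤ e m + i`, hence `deg (M i j) ≤ e`, and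
`< e` if `i < j`, and `deg (M i i) = e`; `g` is the characteristic polynomial of `M`: it is monic of degree `m` and vanishes at
`p(s)`, use `gF_dvd`; the coefficient of `x ^ (m - l)` of a characteristic polynomial is, up to the sign, the sum of the
`l × l` principal minors, and the coefficient of `t ^ e` of `M` is a triangular matrix without zeros on the diagonal.
Other proofs are welcome. -/
theorem coeff_bound [NeZero q.natDegree] (h : IsLine p q g) (hd : derivative q ≠ 0) {e : ℕ}
    (he : p.natDegree = e * q.natDegree) :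
    (∀ j, ((gF F g).coeff j).natDegree ≤ (q.natDegree - j) * e) ∧ ((gF F g).coeff 0).natDegree = q.natDegree * e := by
  have hQd : (pF F q).natDegree = q.natDegree := natDegree_pF q
  have hQ : (pF F q).natDegree ≠ 0 := by
    rw [hQd]
    exact NeZero.ne _
  obtain ⟨M, hM, hle, htri, hdiag⟩ := deg_matrix (pF F q) (pF F p) hQ (e := e) (by
    rw [hQd, natDegree_pF]
    exact he)
  -- the characteristic polynomial vanishes on the line
  have hvan : M.charpoly.eval₂ (compRingHom (pF F q)) (pF F p) = 0 := by
    have h1 : M.charpoly.eval₂ (compRingHom (pF F q)) (pF F p) =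
        ((eval₂RingHom (compRingHom (pF F q)) (pF F p)).mapMatrix M.charmatrix).det := by
      rw [← RingHom.map_det]
      rfl
    rw [h1]
    apply Matrix.exists_mulVec_eq_zero_iff.1
    refine ⟨fun j => X ^ (j : ℕ), ?_, ?_⟩
    · intro h0
      have h2 := congrFun h0 ⟨0, Nat.pos_of_ne_zero hQ⟩
      simp at h2
    · funext i
      simp only [Matrix.mulVec, dotProduct, RingHom.mapMatrix_apply, Matrix.map_apply,
        Pi.zero_apply]
      have h3 : ∀ j, eval₂RingHom (compRingHom (pF F q)) (pF F p) (M.charmatrix i j) =
          (if i = j then pF F p else 0) - (M i j).comp (pF F q) := by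
        intro j
        by_cases hij : i = j
        · subst hij
          rw [Matrix.charmatrix_apply_eq, if_pos rfl, map_sub, coe_eval₂RingHom, eval₂_X, eval₂_C]
          rfl
        · rw [Matrix.charmatrix_apply_ne _ _ _ hij, if_neg hij, map_neg, coe_eval₂RingHom, eval₂_C,
            zero_sub]
          rfl
      have h4 : ∀ j : Fin (pF F q).natDegree, (eval₂RingHom (compRingHom (pF F q)) (pF F p)
          (M.charmatrix i j)) * X ^ (j : ℕ) =
          (if i = j then pF F p * X ^ (j : ℕ) else 0) - (M i j).comp (pF F q) * X ^ (j : ℕ) := by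
        intro j
        rw [h3, sub_mul]
        congr 1
        split_ifs
        · rfl
        · rw [zero_mul]
      rw [Finset.sum_congr rfl fun j _ => h4 j, Finset.sum_sub_distrib, ← hM i,
        Finset.sum_ite_eq, if_pos (Finset.mem_univ i)]
      ring
  have heq : gF F g = M.charpoly := by
    refine (eq_of_monic_of_dvd_of_natDegree_le (gF_monic h) M.charpoly_monic (gF_dvd h hvan) ?_).symm
    rw [Matrix.charpoly_natDegree_eq_dim, Fintype.card_fin, gF_natDegree h, hQd]
  have hW : deg_W e (q.natDegree * e) (gF F g) := by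
    rw [heq, ← hQd]
    exact deg_W_det M.charmatrix (deg_W_char M hle)
  have hb : ∀ j, ((gF F g).coeff j).natDegree ≤ (q.natDegree - j) * e := by
    intro j
    by_cases hj : j ≤ q.natDegree
    · rw [natDegree_le_iff_coeff_eq_zero]
      intro N hN
      apply hW j N
      have h5 : q.natDegree * e = (q.natDegree - j) * e + e * j := by
        obtain ⟨c, hc⟩ := Nat.exists_eq_add_of_le hj
        rw [hc, Nat.add_sub_cancel_left]
        ring
      omega
    · rw [coeff_eq_zero_of_natDegree_lt (by
        rw [gF_natDegree h]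
        exact not_le.1 hj), natDegree_zero]
      exact Nat.zero_le _
  refine ⟨hb, ?_⟩
  refine le_antisymm (by simpa using hb 0) ?_
  by_cases he0 : e = 0
  · rw [he0, mul_zero]
    exact Nat.zero_le _
  apply le_natDegree_of_ne_zero
  have h6 : M.det.coeff (q.natDegree * e) ≠ 0 := by
    rw [← hQd, deg_coeff_det M hle, Matrix.det_of_isLowerTriangular]
    · exact Finset.prod_ne_zero_iff.2 fun i _ => hdiag he0 i
    · intro i j hij
      exact (htri i j hij).resolve_right he0
  rw [heq]
  intro h7
  apply h6
  rw [Matrix.det_eq_sign_charpoly_coeff]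
  rcases neg_one_pow_eq_or F[X] (Fintype.card (Fin (pF F q).natDegree)) with h8 | h8
  · rw [h8, one_mul]
    exact h7
  · rw [h8, neg_mul, one_mul, coeff_neg, h7, neg_zero]

end Pool.Agent.Lib.MP_89bcae_ag.El
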