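import Mathlib
import Pool.Agent.Lib.MP_89bcae_ag.El.Deg

/-!
# The chart at infinity
-/

open Polynomial IsDedekindDomain

open scoped Classical

namespace Pool.Agent.Lib.MP_89bcae_ag.El

open Pool.Agent.Lib.MP_89bcae_ag.Ze

open Pool.Agent.Lib.MP_89bcae_ag.Zp (IsSmoothAt)

variable {k F L : Type} [Field k] [Field F] [Algebra k F] [Field L] [Algebra F[X] L] [IsFractionRing F[X] L]
  {p q : k[X]} {g : k[X][X]}

private lemma chti_coeff_zero_reflect {K : Type} [Field K] (N : ℕ) (f : K[X]) : (reflect N f).eval 0 = f.coeff N := by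
  rw [← coeff_zero_eq_eval_zero, coeff_reflect, revAt_le (Nat.zero_le N), Nat.sub_zero]

private lemma chti_coeff_sum {K : Type} [Field K] (n : ℕ) (a : ℕ → K) (i : ℕ) :
    (∑ j ∈ Finset.range (n + 1), C (a j) * X ^ j : K[X]).coeff i = if i < n + 1 then a i else 0 := by
  rw [finsetSum_coeff]
  simp only [coeff_C_mul, coeff_X_pow, mul_ite, mul_one, mul_zero]
  rw [Finset.sum_ite_eq]
  simp only [Finset.mem_range]

private lemma chti_natDegree_sum {K : Type} [Field K] (n : ℕ) (a : ℕ → K) (ha : a n = 1) :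
    (X * ∑ j ∈ Finset.range (n + 1), C (a j) * X ^ j : K[X]).natDegree = n + 1 := by
  have h1 : (∑ j ∈ Finset.range (n + 1), C (a j) * X ^ j : K[X]).natDegree = n := by
    apply natDegree_eq_of_le_of_coeff_ne_zero
    · rw [natDegree_le_iff_coeff_eq_zero]
      intro N hN
      rw [chti_coeff_sum, if_neg (by omega)]
    · rw [chti_coeff_sum, if_pos (by omega), ha]
      exact one_ne_zero
  have h2 : (∑ j ∈ Finset.range (n + 1), C (a j) * X ^ j : K[X]) ≠ 0 := by
    intro h
    have h3 := chti_coeff_sum n a n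
    rw [h, coeff_zero, if_pos (by omega), ha] at h3
    exact one_ne_zero h3.symm
  rw [natDegree_X_mul h2, h1]

/-- Compare `inf_pi1` in `Xm/ChtI.lean` (same proof). The chart: `τ = 1 / t`, `ρ = 0`, `w = t ^ e`,
`z = t ^ ((m + 1) e / 2)` (`e` is even), and `φ = X * ∑ j ∈ range (m + 1), C (reflect ((m - j) e) (g_j)) * X ^ j`, where
`g_j = (gF F g).coeff j`, `m = deg q`: by `coeff_bound` and `eval₂_reflect_mul_pow`, `x g(t, x)` at `x = t ^ e X` is
`t ^ (e (m + 1)) φ(1 / t, X)`. `φ(0, X)` is monic of degree `m + 1` (`g_m = 1`), so `c = 0`, and its derivative at `0` is the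
coefficient of `t ^ (m e)` in `g_0`, which is not `0` (`coeff_bound`): the centre `(0, 0)` of the valuation `O` of the component
`x = 0` is a smooth point. -/
theorem inf_pi1 [NeZero q.natDegree] (h : IsLine p q g) (hd : derivative q ≠ 0) {e : ℕ} (hp : p.natDegree ≠ 0)
    (he : p.natDegree = e * q.natDegree) (he' : Even e) {u : (AdjoinRoot (poly F L (surf g)))ˣ}
    (hu : u ∈ unramified 2 F (poly F L (surf g))) (O : ValuationSubring L)
    (hO : ∀ c : F, algebraMap F[X] L (C c) ∈ O) (hO' : O.valuation ((algebraMap F[X] L X)⁻¹) < 1) :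
    ∃ w : Lˣ, O.valuation (pi1 F L g u) = O.valuation ((w : L) ^ 2) := by
  obtain ⟨m, hm⟩ : ∃ m, m = q.natDegree := ⟨_, rfl⟩
  have hm0 : m ≠ 0 := by rw [hm]; exact NeZero.ne _
  obtain ⟨M, hM⟩ : ∃ M, e = M + M := he'
  have he0 : e ≠ 0 := by
    intro h0
    rw [h0, zero_mul] at he
    exact hp he
  obtain ⟨hb, hb0⟩ := coeff_bound (F := F) h hd he
  rw [← hm] at hb hb0
  have hgm : (gF F g).coeff m = 1 := by
    have h1 := gF_monic (F := F) h
    rw [Monic, leadingCoeff, gF_natDegree h, ← hm] at h1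
    exact h1
  obtain ⟨T, hT⟩ : ∃ T, T = algebraMap F[X] L X := ⟨_, rfl⟩
  have hT0 : T ≠ 0 := by
    rw [hT]
    intro h
    rw [IsFractionRing.to_map_eq_zero_iff] at h
    exact X_ne_zero h
  have ev : ∀ q : F[X], q.eval₂ ((algebraMap F[X] L).comp C) T = algebraMap F[X] L q := by
    intro q
    rw [hT, ← hom_eval₂, eval₂_C_X]
  obtain ⟨r, hr⟩ : ∃ r : ℕ → L, ∀ j, r j =
      (reflect ((m - j) * e) ((gF F g).coeff j)).eval₂ ((algebraMap F[X] L).comp C) T⁻¹ := ⟨_, fun _ => rfl⟩
  have hrT : ∀ j, r j * T ^ ((m - j) * e) = algebraMap F[X] L ((gF F g).coeff j) := by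
    intro j
    let _ : Invertible T := invertibleOfNonzero hT0
    have h1 := eval₂_reflect_mul_pow ((algebraMap F[X] L).comp C) T ((m - j) * e) ((gF F g).coeff j) (hb j)
    rw [invOf_eq_inv, ev, ← hr] at h1
    exact h1
  obtain ⟨φ, hφ⟩ : ∃ φ : F[X][X], φ = X * ∑ j ∈ Finset.range (m + 1),
      C (reflect ((m - j) * e) ((gF F g).coeff j)) * X ^ j := ⟨_, rfl⟩
  have hφ0 : φ.map (evalRingHom 0) = X * ∑ j ∈ Finset.range (m + 1),
      C (((gF F g).coeff j).coeff ((m - j) * e)) * X ^ j := by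
    rw [hφ, Polynomial.map_mul, map_X, Polynomial.map_sum]
    congr 1
    refine Finset.sum_congr rfl fun j _ => ?_
    rw [Polynomial.map_mul, map_C, Polynomial.map_pow, map_X, coe_evalRingHom, chti_coeff_zero_reflect]
  have hφd : (φ.map (evalRingHom 0)).natDegree = m + 1 := by
    rw [hφ0]
    apply chti_natDegree_sum
    rw [hgm, Nat.sub_self, zero_mul, coeff_one_zero]
  have hgLd : (gL F L g).natDegree = m := by rw [gL_natDegree h, hm]
  have hpd : (poly F L (surf g)).natDegree = m + 1 := by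
    rw [poly_surf, natDegree_X_mul (gL_monic h).ne_zero, hgLd]
  have hgLs : gL F L g = ∑ j ∈ Finset.range (m + 1), C (algebraMap F[X] L ((gF F g).coeff j)) * X ^ j := by
    conv_lhs => rw [(gL F L g).as_sum_range_C_mul_X_pow, hgLd]
    refine Finset.sum_congr rfl fun j _ => ?_
    unfold gL
    rw [coeff_map]
  have hchart : IsChart 2 F (poly F L (surf g)) φ (algebraMap F[X] L X)⁻¹ 0 (T ^ e) := by
    refine ⟨Or.inr rfl, ?_, pow_ne_zero _ hT0, T ^ ((m + 1) * M), pow_ne_zero _ hT0, ?_⟩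
    · intro h
      rw [h, natDegree_zero] at hφd
      omega
    · have e1 : φ.map (eval₂RingHom ((algebraMap F[X] L).comp C) (algebraMap F[X] L X)⁻¹) =
          X * ∑ j ∈ Finset.range (m + 1), C (r j) * X ^ j := by
        rw [hφ, Polynomial.map_mul, map_X, Polynomial.map_sum]
        congr 1
        refine Finset.sum_congr rfl fun j _ => ?_
        rw [Polynomial.map_mul, map_C, Polynomial.map_pow, map_X, coe_eval₂RingHom, ← hT, ← hr]
      have e2 : (T ^ ((m + 1) * M)) ^ 2 = T ^ e * T ^ (m * e) := by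
        rw [← pow_mul, ← pow_add]
        congr 1
        rw [hM]
        ring
      rw [e1, e2, poly_surf, hgLs, mul_comp, X_comp, C_0, zero_add, Polynomial.sum_comp, C_mul]
      have e3 : ∑ j ∈ Finset.range (m + 1), (C (algebraMap F[X] L ((gF F g).coeff j)) * X ^ j : L[X]).comp (C (T ^ e) * X) =
          C (T ^ (m * e)) * ∑ j ∈ Finset.range (m + 1), C (r j) * X ^ j := by
        rw [Finset.mul_sum]
        refine Finset.sum_congr rfl fun j hj => ?_
        have hj' : j ≤ m := Nat.lt_succ_iff.1 (Finset.mem_range.1 hj)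
        have e4 : T ^ (m * e) = T ^ ((m - j) * e) * (T ^ e) ^ j := by
          rw [← pow_mul, ← pow_add]
          congr 1
          obtain ⟨i, rfl⟩ : ∃ i, m = j + i := ⟨m - j, by omega⟩
          rw [Nat.add_sub_cancel_left]
          ring
        rw [mul_comp, C_comp, pow_comp, X_comp, ← hrT j, e4, mul_pow, ← C_pow, C_mul, C_mul]
        ring
      rw [e3]
      ring
  obtain ⟨c, hc, hcc⟩ := hu.2 φ _ 0 (T ^ e) hchart
  have hc0 : c = 0 := hc (by rw [hφd, hpd])
  have hsurj : Function.Surjective (pi1 F L g) := by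
    intro y
    exact ⟨AdjoinRoot.mk _ (C y), by rw [pi1_mk, eval_C]⟩
  have halg : ∀ y : L, pi1 F L g (algebraMap L (AdjoinRoot (poly F L (surf g))) y) = y := by
    intro y
    rw [AdjoinRoot.algebraMap_eq, ← AdjoinRoot.mk_C, pi1_mk, eval_C]
  have hroot : pi1 F L g (AdjoinRoot.root (poly F L (surf g))) = 0 := by
    rw [← AdjoinRoot.mk_X, pi1_mk, eval_X]
  have hcentre : IsCentre F (poly F L (surf g)) (pi1 F L g) O φ (algebraMap F[X] L X)⁻¹ 0 (T ^ e) 0 := by
    refine ⟨fun c => ?_, ?_, ?_, ?_⟩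
    · rw [halg]
      exact hO c
    · rw [halg]
      exact hO'
    · rw [halg, halg, map_sub (pi1 F L g), hroot, halg, C_0, map_zero,
        sub_zero, sub_zero, zero_div, map_zero]
      exact zero_lt_one
    · intro _
      left
      rw [hφ0, derivative_mul, derivative_X, one_mul, eval_add, eval_mul, eval_X, zero_mul, add_zero,
        ← coeff_zero_eq_eval_zero, chti_coeff_sum, if_pos (Nat.succ_pos m), Nat.sub_zero, ← hb0]
      change ((gF F g).coeff 0).leadingCoeff ≠ 0
      rw [Ne, leadingCoeff_eq_zero]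
      intro h0
      rw [h0, natDegree_zero] at hb0
      exact (Nat.mul_ne_zero hm0 he0) hb0.symm
  obtain ⟨v, hv⟩ := hcc L (pi1 F L g) hsurj O 0 hcentre
  exact ⟨v, by rw [hv, hc0, zpow_zero, one_mul]⟩

end Pool.Agent.Lib.MP_89bcae_ag.El
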