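import Mathlib
import Pool.Agent.Lib.MP_89bcae_ag.El.Defs
import Pool.Agent.Lib.MP_89bcae_ag.Xs.Sel

/-!
# The lines `x = a(t) + s`, `t = q(s)`, and the examples over `ℚ`
-/

open Polynomial

open scoped Classical

namespace Pool.Agent.Lib.MP_89bcae_ag.El

open Pool.Agent.Lib.MP_89bcae_ag.Xs (selmer_gal)

section

variable {k : Type} [Field k]

/-- The polynomial `q(x - a(t)) - t`, in `x` with coefficients in `k[t]`. -/
noncomputable def curve (a q : k[X]) : k[X][X] := (q.map C).comp (X - C a) - C X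

/-- The curve `q(x - a(t)) = t` is the line `t = q(s)`, `x = a(q(s)) + s`. -/
theorem isLine_curve (a : k[X]) {q : k[X]} (hq : q.Monic) (hq0 : q.natDegree ≠ 0) :
    IsLine (a.comp q + X) q (curve a q) := by
  have h1 : ((q.map C).comp (X - C a)).Monic := by
    refine (hq.map C).comp (monic_X_sub_C a) ?_
    rw [natDegree_X_sub_C]
    exact one_ne_zero
  have h2 : ((q.map C).comp (X - C a)).natDegree = q.natDegree := by
    rw [natDegree_comp, natDegree_X_sub_C, mul_one, hq.natDegree_map]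
  have h3 : (C X : k[X][X]).degree < ((q.map C).comp (X - C a)).degree := by
    refine degree_lt_degree ?_
    rw [h2, natDegree_C]
    exact Nat.pos_of_ne_zero hq0
  refine ⟨?_, ?_, ?_, ?_⟩
  · have h4 : q ∈ Algebra.adjoin k {a.comp q + X, q} := Algebra.subset_adjoin (Or.inr rfl)
    have h5 : a.comp q + X ∈ Algebra.adjoin k {a.comp q + X, q} := Algebra.subset_adjoin (Or.inl rfl)
    have h6 : a.comp q ∈ Algebra.adjoin k {a.comp q + X, q} := by
      have h7 : aeval q a ∈ Algebra.adjoin k {a.comp q + X, q} := by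
        have h8 := Subalgebra.aeval_coe (Algebra.adjoin k {a.comp q + X, q}) ⟨q, h4⟩ a
        exact Eq.mpr (congrArg (· ∈ Algebra.adjoin k {a.comp q + X, q}) h8) (Subtype.mem _)
      exact h7
    have h9 : (X : k[X]) ∈ Algebra.adjoin k {a.comp q + X, q} := by
      have h10 := Subalgebra.sub_mem _ h5 h6
      rwa [add_sub_cancel_left] at h10
    rw [eq_top_iff, ← adjoin_X]
    refine Algebra.adjoin_le ?_
    rintro _ rfl
    exact h9
  · exact h1.sub_of_left h3
  · unfold curve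
    rw [natDegree_sub_eq_left_of_natDegree_lt, h2]
    rw [h2, natDegree_C]
    exact Nat.pos_of_ne_zero hq0
  · unfold curve
    have h4 : (compRingHom q).comp C = (C : k →+* k[X]) := RingHom.ext fun c => C_comp
    rw [eval₂_sub, eval₂_C, coe_compRingHom_apply, X_comp, eval₂_comp, eval₂_sub, eval₂_X, eval₂_C, coe_compRingHom_apply,
      add_sub_cancel_left, eval₂_map, h4, eval₂_C_X, sub_self]

end

/-! ### The examples over `ℚ` -/

lemma curve_X_pow {k : Type} [Field k] (m : ℕ) (a : k[X]) : curve a (X ^ m) = (X - C a) ^ m - C X := by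
  unfold curve
  rw [Polynomial.map_pow, map_X, X_pow_comp]

lemma alpha_rat (m d : ℕ) : (1 - X ^ d : ℚ[X]).comp (X ^ m) + X = -(X ^ (m * d) - X - 1) := by
  rw [sub_comp, one_comp, pow_comp, X_comp, ← pow_mul]
  ring

lemma rootSet_alpha_rat (F : Type) [Field F] [Algebra ℚ F] (m d : ℕ) :
    ((1 - X ^ d : ℚ[X]).comp (X ^ m) + X).rootSet F = (X ^ (m * d) - X - 1 : ℚ[X]).rootSet F := by
  rw [alpha_rat, rootSet_neg]

/-- The Galois group is the whole symmetric group. -/
theorem full_rat {F : Type} [Field F] [Algebra ℚ F] [IsAlgClosure ℚ F] {m d : ℕ} (hd : 8 ≤ m * d)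
    (τ : Equiv.Perm (((1 - X ^ d : ℚ[X]).comp (X ^ m) + X).rootSet F)) :
    ∃ σ : F ≃ₐ[ℚ] F, ∀ s : ((1 - X ^ d : ℚ[X]).comp (X ^ m) + X).rootSet F, σ (s : F) = τ s := by
  have key : ∀ (T : Set F), T = (X ^ (m * d) - X - 1 : ℚ[X]).rootSet F → ∀ τ : Equiv.Perm T,
      ∃ σ : F ≃ₐ[ℚ] F, ∀ s : T, σ (s : F) = τ s := by
    rintro _ rfl τ
    exact selmer_gal (by omega) τ
  exact key _ (rootSet_alpha_rat F m d) τ

/-- The examples over `ℚ`. -/
theorem isExample_rat {F : Type} [Field F] [Algebra ℚ F] [IsAlgClosure ℚ F] {m d : ℕ} (hm : Even m) (hd : Even d)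
    (h : 8 ≤ m * d) :
    IsExample F ((1 - X ^ d : ℚ[X]).comp (X ^ m) + X) (X ^ m) ((X - C (1 - X ^ d : ℚ[X])) ^ m - C X) := by
  have hm0 : m ≠ 0 := by
    rintro rfl
    omega
  have hdeg : ((1 - X ^ d : ℚ[X]).comp (X ^ m) + X).natDegree = d * m := by
    rw [alpha_rat, natDegree_neg, sub_sub, natDegree_sub_eq_left_of_natDegree_lt, natDegree_X_pow, mul_comm]
    rw [natDegree_X_pow]
    refine lt_of_le_of_lt (natDegree_add_le _ _) ?_
    rw [natDegree_X, natDegree_one]
    omega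
  have h1 := isLine_curve (1 - X ^ d : ℚ[X]) (q := X ^ m) (monic_X_pow m) (by rwa [natDegree_X_pow])
  rw [curve_X_pow] at h1
  refine ⟨h1, two_ne_zero, ?_, by rwa [natDegree_X_pow], ⟨d, hd, by rw [hdeg, natDegree_X_pow]⟩, ?_, ?_,
    fun τ _ => full_rat h τ⟩
  · rw [derivative_X_pow]
    refine mul_ne_zero ?_ (pow_ne_zero _ X_ne_zero)
    rw [Ne, C_eq_zero]
    exact_mod_cast hm0
  · rw [hdeg, mul_comm]
    exact h
  · rw [alpha_rat]
    have hirr : Irreducible (X ^ (m * d) - X - 1 : ℚ[X]) := X_pow_sub_X_sub_one_irreducible_rat (by omega)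
    exact (Associated.neg_right (Associated.refl _)).separable hirr.separable

end Pool.Agent.Lib.MP_89bcae_ag.El
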