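import Mathlib
import Pool.Agent.Lib.MP_89bcae_ag.El.Defs
import Pool.Agent.Lib.MP_89bcae_ag.Xs.Gal

/-!
# The Galois group and the orders of the zeros
-/

open Polynomial IsDedekindDomain

open scoped Classical

namespace Pool.Agent.Lib.MP_89bcae_ag.El

open Pool.Agent.Lib.MP_89bcae_ag.Ze

open Pool.Agent.Lib.MP_89bcae_ag.Xs (ord Or cHom cHom_mk hom_ext_L cR cR_algebraMap cR_C cR_X comp_algebraMap cR_poly
  cAut cAut_apply cAut_mem)

section

variable {k F L : Type} [Field k] [Field F] [Algebra k F] [Field L] [Algebra F[X] L] [IsFractionRing F[X] L]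
  {p q : k[X]} {g : k[X][X]} [NeZero q.natDegree]

omit [IsFractionRing F[X] L] [Algebra F[X] L] [Field L] [NeZero q.natDegree] in
lemma pF_map (p : k[X]) (σ : F ≃ₐ[k] F) : (pF F p).map ((σ : F ≃+* F) : F →+* F) = pF F p := by
  unfold pF
  rw [Polynomial.map_map, comp_algebraMap]

omit [NeZero q.natDegree] in
lemma cR_pF (p : k[X]) (σ : F ≃ₐ[k] F) :
    cR L (σ : F ≃+* F) (algebraMap F[X] L (pF F p)) = algebraMap F[X] L (pF F p) := by
  rw [cR_algebraMap, pF_map]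

lemma cR_ex (σ : F ≃ₐ[k] F) : (ex F L q).comp (cR L (σ : F ≃+* F)) = (cR L (σ : F ≃+* F)).comp (ex F L q) := by
  refine hom_ext_L (F := F) (fun c => ?_) ?_
  · rw [RingHom.comp_apply, RingHom.comp_apply, cR_C, ex_algebraMap, ex_algebraMap, C_comp, C_comp, cR_C]
  · rw [RingHom.comp_apply, RingHom.comp_apply, cR_X, ex_algebraMap, X_comp, cR_pF]

lemma pi0_cAut (h : IsLine p q g) (σ : F ≃ₐ[k] F) (u : AdjoinRoot (poly F L (surf g))) :
    pi0 F L h (cAut L (surf g) σ u) = cR L (σ : F ≃+* F) (pi0 F L h u) := by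
  obtain ⟨A, rfl⟩ := AdjoinRoot.mk_surjective u
  rw [cAut_apply, cHom_mk, pi0_mk, pi0_mk, eval₂_map, cR_ex, hom_eval₂, cR_pF]

theorem exists_galois (h : IsLine p q g) (σ : F ≃ₐ[k] F) :
    ∃ γ ∈ galois 2 k F (poly F L (surf g)), ∀ (u : AdjoinRoot (poly F L (surf g))) (r : F),
      ord (σ r) (pi0 F L h (γ u)) = ord r (pi0 F L h u) := by
  refine ⟨cAut L (surf g) σ, cAut_mem _ σ, fun u r => ?_⟩
  rw [pi0_cAut]
  unfold ord
  exact congrArg (fun v => -(WithZero.log v)) (Sup.valuation_coefL L (σ : F ≃+* F) r (pi0 F L h u))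

end

end Pool.Agent.Lib.MP_89bcae_ag.El
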