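import Mathlib

/-!
# The norm of a polynomial in the root
-/

open Polynomial

open scoped Classical

namespace Pool.Agent.Lib.MP_89bcae_ag.El

/-- The determinant of a polynomial in a matrix. -/
theorem det_aeval {K : Type*} [Field K] [IsAlgClosed K] {n : Type*} [Fintype n] [DecidableEq n]
    (N : Matrix n n K) (A : K[X]) :
    (aeval N A).det = (N.charpoly.roots.map fun θ => A.eval θ).prod := by
  have hcard : N.charpoly.roots.card = Fintype.card n := by
    rw [← Matrix.charpoly_natDegree_eq_dim N]
    exact splits_iff_card_roots.1 (IsAlgClosed.splits _)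
  have h1 : ∀ α : K, (N - algebraMap K _ α).det = (N.charpoly.roots.map fun θ => θ - α).prod := by
    intro α
    have h2 : (algebraMap K (Matrix n n K) α - N).det = N.charpoly.eval α := by
      rw [Matrix.eval_charpoly]
      rfl
    have h3 : N.charpoly.eval α = (N.charpoly.roots.map fun θ => α - θ).prod := by
      conv_lhs => rw [(IsAlgClosed.splits N.charpoly).eq_prod_roots_of_monic N.charpoly_monic]
      rw [eval_multiset_prod, Multiset.map_map]
      congr 1
      refine Multiset.map_congr rfl fun θ _ => ?_
      simp
    rw [← neg_sub, Matrix.det_neg, h2, h3, ← hcard]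
    rw [← Multiset.card_map (fun θ => α - θ), ← Multiset.prod_map_neg, Multiset.map_map]
    congr 1
    refine Multiset.map_congr rfl fun θ _ => ?_
    simp
  have h4 : ∀ (a : K) (s : Multiset K), (aeval N (C a * (s.map fun α => X - C α).prod)).det =
      (N.charpoly.roots.map fun θ => (C a * (s.map fun α => X - C α).prod).eval θ).prod := by
    intro a s
    induction s using Multiset.induction with
    | empty =>
      simp only [Multiset.map_zero, Multiset.prod_zero, mul_one, aeval_C, eval_C, Multiset.map_const', Multiset.prod_replicate,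
        Matrix.algebraMap_eq_diagonal, hcard]
      simp
    | cons b s ih =>
      have h5 : C a * ((b ::ₘ s).map fun α => X - C α).prod = (X - C b) * (C a * (s.map fun α => X - C α).prod) := by
        rw [Multiset.map_cons, Multiset.prod_cons]
        ring
      rw [h5, map_mul, Matrix.det_mul, ih]
      simp only [eval_mul (p := X - C b)]
      rw [Multiset.prod_map_mul]
      congr 1
      rw [map_sub, aeval_X, aeval_C, h1]
      simp
  have h6 := (IsAlgClosed.splits A).eq_prod_roots
  rw [h6]
  exact h4 _ _

/-- The norm of a polynomial in the root. -/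
theorem norm_mk {L K : Type*} [Field L] [Field K] [Algebra L K] [IsAlgClosed K] {f : L[X]} (hf : f.Monic)
    (A : L[X]) : algebraMap L K (Algebra.norm L (AdjoinRoot.mk f A)) =
      ((f.map (algebraMap L K)).roots.map fun θ => aeval θ A).prod := by
  classical
  obtain ⟨pb, hpb⟩ : ∃ pb : PowerBasis L (AdjoinRoot f), pb.gen = AdjoinRoot.root f :=
    ⟨AdjoinRoot.powerBasis' hf, rfl⟩
  obtain ⟨N, hN⟩ : ∃ N, N = Algebra.leftMulMatrix pb.basis pb.gen := ⟨_, rfl⟩
  have h1 : Algebra.norm L (AdjoinRoot.mk f A) = (aeval N A).det := by
    rw [Algebra.norm_eq_matrix_det pb.basis, hN, aeval_algHom_apply, hpb, AdjoinRoot.aeval_eq]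
  have h2 : N.charpoly = f := by
    rw [hN, charpoly_leftMulMatrix, hpb, AdjoinRoot.minpoly_root hf.ne_zero, hf.leadingCoeff, inv_one, C_1, mul_one]
  have h3 : (algebraMap L K).mapMatrix (aeval N A) =
      aeval ((algebraMap L K).mapMatrix N) (A.map (algebraMap L K)) := by
    rw [aeval_def, aeval_def, hom_eval₂, eval₂_map]
    congr 1
    ext c i j
    by_cases h : i = j
    · simp [Matrix.algebraMap_matrix_apply, h]
    · simp [Matrix.algebraMap_matrix_apply, h]
  have h4 : ((algebraMap L K).mapMatrix N).charpoly = f.map (algebraMap L K) := by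
    rw [← congrArg (Polynomial.map (algebraMap L K)) h2]
    exact Matrix.charpoly_map N (algebraMap L K)
  rw [h1, RingHom.map_det, h3, det_aeval, h4]
  congr 1
  refine Multiset.map_congr rfl fun θ _ => ?_
  rw [eval_map_algebraMap]

end Pool.Agent.Lib.MP_89bcae_ag.El
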