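import Mathlib
import Pool.Agent.Lib.MP_89bcae_ag.El.RootA
import Pool.Agent.Lib.MP_89bcae_ag.Xs.Ord

/-!
# The orders of the norm from `F(s)` to `F(q(s))`
-/

open Polynomial IsDedekindDomain

open scoped Classical

namespace Pool.Agent.Lib.MP_89bcae_ag.El

open Pool.Agent.Lib.MP_89bcae_ag.Ze

open Pool.Agent.Lib.MP_89bcae_ag.Xs (ord ord_mul ord_one ord_inv ord_algebraMap)

variable {k F L Ω : Type} [Field k] [Field F] [Algebra k F] [Field L] [Algebra F[X] L] [IsFractionRing F[X] L] [Field Ω]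
  {ι : L →+* Ω} {p q : k[X]} {g : k[X][X]}

/-- The statement of `prod_ord` for `z`. -/
def nrmaP {k F L Ω : Type} [Field k] [Field F] [Algebra k F] [Field L] [Algebra F[X] L] [IsFractionRing F[X] L]
    [Field Ω] (ι : L →+* Ω) (q : k[X]) (e : Ω → L →+* Ω) (z : L) : Prop :=
  z ≠ 0 ∧ ∃ w : L, w ≠ 0 ∧ ι w = ((RS F ι q).map fun σ => e σ z).prod ∧
      ∀ r : F, ord r w = ∑ b ∈ (pF F q - C r).roots.toFinset, ord b z

lemma nrma_mul {e : Ω → L →+* Ω} {z z' : L} (h : nrmaP (F := F) ι q e z) (h' : nrmaP (F := F) ι q e z') :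
    nrmaP (F := F) ι q e (z * z') := by
  obtain ⟨h0, w, hw0, hw, ho⟩ := h
  obtain ⟨h0', w', hw0', hw', ho'⟩ := h'
  refine ⟨mul_ne_zero h0 h0', w * w', mul_ne_zero hw0 hw0', ?_, fun r => ?_⟩
  · simp only [map_mul, hw, hw', Multiset.prod_map_mul]
  · rw [ord_mul r hw0 hw0', ho, ho', ← Finset.sum_add_distrib]
    exact Finset.sum_congr rfl fun b _ => (ord_mul b h0 h0').symm

lemma nrma_inv {e : Ω → L →+* Ω} {z : L} (h : nrmaP (F := F) ι q e z) : nrmaP (F := F) ι q e z⁻¹ := by
  obtain ⟨h0, w, hw0, hw, ho⟩ := h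
  refine ⟨inv_ne_zero h0, w⁻¹, inv_ne_zero hw0, ?_, fun r => ?_⟩
  · rw [map_inv₀, hw, ← Multiset.prod_map_inv]
    congr 1
    exact Multiset.map_congr rfl fun σ _ => (map_inv₀ _ _).symm
  · rw [ord_inv, ho, ← Finset.sum_neg_distrib]
    exact Finset.sum_congr rfl fun b _ => (ord_inv b z).symm

lemma nrma_ne {P : F[X]} (hP : P ≠ 0) : algebraMap F[X] L P ≠ 0 := fun h =>
  hP ((injective_iff_map_eq_zero _).mp (IsFractionRing.injective F[X] L) _ h)

lemma nrma_C {e : Ω → L →+* Ω}
    (he : ∀ σ ∈ RS F ι q, ∀ P : F[X], e σ (algebraMap F[X] L P) = P.eval₂ (kap F ι) σ) {c : F} (hc : c ≠ 0) :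
    nrmaP (F := F) ι q e (algebraMap F[X] L (C c)) := by
  have h0 : algebraMap F[X] L (C c) ≠ 0 := nrma_ne (C_ne_zero.mpr hc)
  have hord : ∀ r : F, ord r (algebraMap F[X] L (C c)) = 0 := fun r => by
    rw [ord_algebraMap r (C_ne_zero.mpr hc), rootMultiplicity_C, Nat.cast_zero]
  have hpow : ∀ (n : ℕ) (r : F), ord r ((algebraMap F[X] L (C c)) ^ n) = 0 := by
    intro n r
    induction n with
    | zero => rw [pow_zero, ord_one]
    | succ n ih => rw [pow_succ, ord_mul r (pow_ne_zero n h0) h0, ih, hord, add_zero]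
  refine ⟨h0, (algebraMap F[X] L (C c)) ^ Multiset.card (RS F ι q), pow_ne_zero _ h0, ?_, fun r => ?_⟩
  · have h1 : (RS F ι q).map (fun σ => e σ (algebraMap F[X] L (C c))) =
        (RS F ι q).map (fun _ => ι (algebraMap F[X] L (C c))) := by
      refine Multiset.map_congr rfl fun σ hσ => ?_
      rw [he σ hσ, eval₂_C]
      rfl
    rw [h1, Multiset.map_const', Multiset.prod_replicate, map_pow]
  · rw [hpow, Finset.sum_eq_zero fun b _ => hord b]

lemma nrma_X [IsAlgClosed Ω] [NeZero q.natDegree] {e : Ω → L →+* Ω}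
    (he : ∀ σ ∈ RS F ι q, ∀ P : F[X], e σ (algebraMap F[X] L P) = P.eval₂ (kap F ι) σ) (b0 : F) :
    nrmaP (F := F) ι q e (algebraMap F[X] L (X - C b0)) := by
  have hqd : (pF F q).natDegree ≠ 0 := by
    rw [natDegree_pF]
    exact NeZero.ne _
  have hq0 : pF F q ≠ 0 := by
    intro h
    rw [h, natDegree_zero] at hqd
    exact hqd rfl
  have hlc : (pF F q).leadingCoeff ≠ 0 := leadingCoeff_ne_zero.mpr hq0
  have hkl : kap F ι (pF F q).leadingCoeff ≠ 0 := fun h => hlc ((map_eq_zero _).mp h)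
  obtain ⟨G, hG⟩ : ∃ G : Polynomial Ω, G = (pF F q).map (kap F ι) - C (ι (algebraMap F[X] L X)) := ⟨_, rfl⟩
  have hGr : G.roots = RS F ι q := by rw [hG]; rfl
  have hGl : G.leadingCoeff = kap F ι (pF F q).leadingCoeff := by
    rw [hG, leadingCoeff_sub_of_degree_lt, leadingCoeff_map]
    refine lt_of_le_of_lt degree_C_le ?_
    rw [degree_map]
    exact natDegree_pos_iff_degree_pos.mp (Nat.pos_of_ne_zero hqd)
  have hspl : G = C G.leadingCoeff * (G.roots.map fun a => X - C a).prod :=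
    (IsAlgClosed.splits G).eq_prod_roots
  have hev : G.eval (kap F ι b0) = kap F ι (pF F q).leadingCoeff *
      ((RS F ι q).map fun σ => kap F ι b0 - σ).prod := by
    conv_lhs => rw [hspl]
    rw [eval_mul, eval_C, hGl, eval_multiset_prod, Multiset.map_map, hGr]
    congr 2
    refine Multiset.map_congr rfl fun σ _ => ?_
    rw [Function.comp_apply, eval_sub, eval_X, eval_C]
  have hev2 : G.eval (kap F ι b0) = ι (algebraMap F[X] L (C ((pF F q).eval b0) - X)) := by
    rw [hG, eval_sub, eval_C, eval_map, eval₂_hom, map_sub, map_sub]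
    rfl
  have hneg : ((RS F ι q).map fun σ => e σ (algebraMap F[X] L (X - C b0))).prod =
      (-1) ^ Multiset.card (RS F ι q) * ((RS F ι q).map fun σ => kap F ι b0 - σ).prod := by
    have h1 : (RS F ι q).map (fun σ => e σ (algebraMap F[X] L (X - C b0))) =
        (RS F ι q).map (fun σ => (-1) * (kap F ι b0 - σ)) := by
      refine Multiset.map_congr rfl fun σ hσ => ?_
      rw [he σ hσ, eval₂_sub, eval₂_X, eval₂_C]
      ring
    rw [h1, Multiset.prod_map_mul, Multiset.map_const', Multiset.prod_replicate]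
  obtain ⟨c', hc'⟩ : ∃ c' : F, c' = (-1) ^ Multiset.card (RS F ι q) * (-(pF F q).leadingCoeff⁻¹) := ⟨_, rfl⟩
  have hc0 : c' ≠ 0 := by
    rw [hc']
    exact mul_ne_zero (pow_ne_zero _ (neg_ne_zero.mpr one_ne_zero)) (neg_ne_zero.mpr (inv_ne_zero hlc))
  have hw0 : C c' * (X - C ((pF F q).eval b0)) ≠ 0 := mul_ne_zero (C_ne_zero.mpr hc0) (X_sub_C_ne_zero _)
  refine ⟨nrma_ne (X_sub_C_ne_zero b0), algebraMap F[X] L (C c' * (X - C ((pF F q).eval b0))), nrma_ne hw0, ?_,
    fun r => ?_⟩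
  · rw [hneg]
    have h2 : ((RS F ι q).map fun σ => kap F ι b0 - σ).prod =
        (kap F ι (pF F q).leadingCoeff)⁻¹ * ι (algebraMap F[X] L (C ((pF F q).eval b0) - X)) := by
      rw [← hev2, hev, ← mul_assoc, inv_mul_cancel₀ hkl, one_mul]
    have h3 : ∀ c : F, ι (algebraMap F[X] L (C c)) = kap F ι c := fun c => rfl
    rw [h2, map_mul, map_mul, h3, hc', map_mul, map_pow, map_neg, map_one, map_neg, map_inv₀]
    simp only [map_sub]
    ring
  · rw [ord_algebraMap r hw0, rootMultiplicity_mul hw0, rootMultiplicity_C, rootMultiplicity_X_sub_C, zero_add]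
    have h4 : ∀ b ∈ (pF F q - C r).roots.toFinset, ord b (algebraMap F[X] L (X - C b0)) =
        if b = b0 then (1 : ℤ) else 0 := by
      intro b _
      rw [ord_algebraMap b (X_sub_C_ne_zero b0), rootMultiplicity_X_sub_C]
      split_ifs <;> rfl
    rw [Finset.sum_congr rfl h4, Finset.sum_ite_eq']
    have hne : pF F q - C r ≠ 0 := by
      intro h
      apply hqd
      rw [sub_eq_zero.mp h, natDegree_C]
    have h5 : b0 ∈ (pF F q - C r).roots.toFinset ↔ r = (pF F q).eval b0 := by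
      rw [Multiset.mem_toFinset, mem_roots hne, IsRoot.def, eval_sub, eval_C, sub_eq_zero]
      exact eq_comm
    by_cases h6 : r = (pF F q).eval b0
    · rw [if_pos h6, if_pos (h5.mpr h6)]
      rfl
    · rw [if_neg h6, if_neg (fun h => h6 (h5.mp h))]
      rfl

lemma nrma_poly [IsAlgClosed F] [IsAlgClosed Ω] [NeZero q.natDegree] {e : Ω → L →+* Ω}
    (he : ∀ σ ∈ RS F ι q, ∀ P : F[X], e σ (algebraMap F[X] L P) = P.eval₂ (kap F ι) σ) {P : F[X]} (hP : P ≠ 0) :
    nrmaP (F := F) ι q e (algebraMap F[X] L P) := by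
  have h1 : ∀ m : Multiset F, nrmaP (F := F) ι q e (algebraMap F[X] L ((m.map fun a => X - C a).prod)) := by
    intro m
    induction m using Multiset.induction_on with
    | empty =>
      rw [Multiset.map_zero, Multiset.prod_zero, ← C_1]
      exact nrma_C he one_ne_zero
    | cons a m ih =>
      rw [Multiset.map_cons, Multiset.prod_cons, map_mul]
      exact nrma_mul (nrma_X he a) ih
  rw [(IsAlgClosed.splits P).eq_prod_roots, map_mul]
  exact nrma_mul (nrma_C he (leadingCoeff_ne_zero.mpr hP)) (h1 _)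

/-- Let `z` be a nonzero element of `F(s)`; the product over the roots `σ` of `q(S) = t` of the `z(σ)` is an element `w` of
`L = F(t)`, and the order of `w` at `t = r` is the sum of the orders of `z` at the `b` with `q(b) = r`.
Proof: the statement is multiplicative in `z` (and true for the inverses: `ord_mul`, `ord_inv`), so it is enough to prove it for
the constants `c` (`w = c ^ m`, all the orders are `0`; `RS_card` is not needed: `Multiset.map_const`, `prod_replicate`) and for `z = s - b₀`: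
`∏ (σ - b₀) = (-1) ^ m (q(b₀) - t) / lc q` since `q(S) - t = lc q ∏ (S - σ)` (`IsAlgClosed.splits`, `eq_prod_roots`), so
`w = (-1) ^ m (lc q)⁻¹ (q(b₀) - t)`, of order `1` at `t = q(b₀)` and `0` elsewhere (`ord_algebraMap`), and the order of `s - b₀` is `1` at
`b₀` and `0` elsewhere. Every polynomial over `F` is a product of such factors (`IsAlgClosed.splits`). -/
theorem prod_ord [IsAlgClosed F] [IsAlgClosed Ω] [NeZero q.natDegree] {e : Ω → L →+* Ω}
    (he : ∀ σ ∈ RS F ι q, ∀ P : F[X], e σ (algebraMap F[X] L P) = P.eval₂ (kap F ι) σ) {z : L} (hz : z ≠ 0) :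
    ∃ w : L, w ≠ 0 ∧ ι w = ((RS F ι q).map fun σ => e σ z).prod ∧
      ∀ r : F, ord r w = ∑ b ∈ (pF F q - C r).roots.toFinset, ord b z := by
  obtain ⟨P, Q, hQ, rfl⟩ := IsFractionRing.div_surjective (A := F[X]) z
  have hQ0 : Q ≠ 0 := nonZeroDivisors.ne_zero hQ
  have hP0 : P ≠ 0 := by
    rintro rfl
    apply hz
    rw [map_zero, zero_div]
  rw [div_eq_mul_inv]
  exact (nrma_mul (nrma_poly he hP0) (nrma_inv (nrma_poly he hQ0))).2

end Pool.Agent.Lib.MP_89bcae_ag.El
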