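import Mathlib
import Pool.Agent.Lib.MP_89bcae_ag.El.RootB
import Pool.Agent.Lib.MP_89bcae_ag.El.NrmA
import Pool.Agent.Lib.MP_89bcae_ag.El.NormMk

/-!
# The norm to `L` and the two components
-/

open Polynomial IsDedekindDomain

open scoped Classical

namespace Pool.Agent.Lib.MP_89bcae_ag.El

open Pool.Agent.Lib.MP_89bcae_ag.Ze

open Pool.Agent.Lib.MP_89bcae_ag.Xs (ord)

variable {k F L Ω : Type} [Field k] [Field F] [Algebra k F] [Field L] [Algebra F[X] L] [IsFractionRing F[X] L] [Field Ω]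
  {p q : k[X]} {g : k[X][X]}

/-- The norm. Proof: compare `norm_rel` in `Xm/Nrm.lean`. Write `u = mk A`; `norm_mk` (`NormMk.lean`), with the algebra
structure `ι` on `Ω`, gives the norm as the product of `A(θ)` over the roots `θ` of `X * g`: by `gL_map` they are `0`, where the value
is `ι (A(0)) = ι (pi1 u)`, and the `p(σ)`, where the value is `A^ι(p(σ)) = e σ (A.eval₂ (ex F L q) p(s)) = e σ (pi0 u)`
(`hom_eval₂`, `e σ ∘ ex = ι`, `e σ (p(s)) = p(σ)`). -/
theorem norm_formula [IsAlgClosed Ω] [NeZero q.natDegree] (ι : L →+* Ω) (h : IsLine p q g) (hd : derivative q ≠ 0)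
    {e : Ω → L →+* Ω} (he : ∀ σ ∈ RS F ι q, ∀ P : F[X], e σ (algebraMap F[X] L P) = P.eval₂ (kap F ι) σ)
    (he' : ∀ σ ∈ RS F ι q, ∀ x : L, e σ (ex F L q x) = ι x) (u : AdjoinRoot (poly F L (surf g))) :
    ι (Algebra.norm L u) = ι (pi1 F L g u) * ((RS F ι q).map fun σ => e σ (pi0 F L h u)).prod := by
  obtain ⟨A, rfl⟩ := AdjoinRoot.mk_surjective u
  let _ : Algebra L Ω := ι.toAlgebra
  have hmap : @algebraMap L Ω _ _ ι.toAlgebra = ι := rfl
  have hmon : (poly F L (surf g)).Monic := by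
    rw [poly_surf]
    exact monic_X.mul (gL_monic h)
  have h1 := norm_mk (K := Ω) hmon A
  have h4 : (poly F L (surf g)).map ι =
      (((0 : Ω) ::ₘ ((RS F ι q).map fun σ => (pF F p).eval₂ (kap F ι) σ)).map fun θ => X - C θ).prod := by
    rw [poly_surf, Polynomial.map_mul, map_X, gL_map h hd, Multiset.map_cons, Multiset.prod_cons, C_0, sub_zero,
      Multiset.map_map]
    rfl
  rw [hmap, h4, roots_multiset_prod_X_sub_C, Multiset.map_cons, Multiset.prod_cons, Multiset.map_map] at h1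
  have h5 : ∀ θ : Ω, @aeval L Ω _ _ ι.toAlgebra θ A = A.eval₂ ι θ := by
    intro θ
    rw [aeval_def, hmap]
  have h6 : A.eval₂ ι 0 = ι (A.eval 0) := by
    have h := eval₂_hom (p := A) ι 0
    rwa [map_zero] at h
  rw [pi1_mk, pi0_mk]
  rw [h1, h5, h6]
  congr 2
  refine Multiset.map_congr rfl fun σ hσ => ?_
  rw [Function.comp_apply, h5, hom_eval₂, he σ hσ]
  congr 1
  exact RingHom.ext fun x => (he' σ hσ x).symm

/-- The homomorphisms. -/
theorem nrmb_exists [NeZero q.natDegree] (ι : L →+* Ω) : ∃ e : Ω → L →+* Ω,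
    (∀ σ ∈ RS F ι q, ∀ P : F[X], e σ (algebraMap F[X] L P) = P.eval₂ (kap F ι) σ) ∧
      ∀ σ ∈ RS F ι q, ∀ x : L, e σ (ex F L q x) = ι x := by
  have h : ∀ σ : Ω, ∃ e : L →+* Ω, σ ∈ RS F ι q →
      (∀ P : F[X], e (algebraMap F[X] L P) = P.eval₂ (kap F ι) σ) ∧ ∀ x : L, e (ex F L q x) = ι x := by
    intro σ
    by_cases hσ : σ ∈ RS F ι q
    · obtain ⟨e, h1, h2⟩ := exists_eval hσ
      exact ⟨e, fun _ => ⟨h1, h2⟩⟩
    · exact ⟨ι, fun h => absurd h hσ⟩
  choose e he using h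
  exact ⟨e, fun σ hσ => (he σ hσ).1, fun σ hσ => (he σ hσ).2⟩

/-- The norm and the orders. Proof: take `Ω = AlgebraicClosure L`, `ι = algebraMap`, choose the `e σ` with `exists_eval` (for
`σ ∉ RS` take `ι`), and apply `norm_formula` and `prod_ord` with `z = pi0 F L h u`; `ι` is injective. -/
theorem norm_rel [IsAlgClosed F] [NeZero q.natDegree] (h : IsLine p q g) (hd : derivative q ≠ 0)
    (u : (AdjoinRoot (poly F L (surf g)))ˣ) :
    ∃ w : L, w ≠ 0 ∧ Algebra.norm L (u : AdjoinRoot (poly F L (surf g))) = pi1 F L g u * w ∧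
      ∀ r : F, ord r w = ∑ b ∈ (pF F q - C r).roots.toFinset, ord b (pi0 F L h u) := by
  obtain ⟨ι, -⟩ : ∃ ι : L →+* AlgebraicClosure L, ι = algebraMap L (AlgebraicClosure L) := ⟨_, rfl⟩
  obtain ⟨e, he, he'⟩ := nrmb_exists (F := F) (q := q) ι
  have hz : pi0 F L h (u : AdjoinRoot (poly F L (surf g))) ≠ 0 := (u.isUnit.map (pi0 F L h)).ne_zero
  obtain ⟨w, hw0, hw, hord⟩ := prod_ord he hz
  refine ⟨w, hw0, ?_, hord⟩
  apply ι.injective
  rw [norm_formula ι h hd he he' u, map_mul, hw]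

/-- Let `pi0 u = - p(s)`; then the norm of `u` is `pi1 u * g(t, 0)`. Proof: `norm_formula` and
`gL_map`, evaluated at `0`: `ι (g(t, 0)) = ∏ (0 - p(σ)) = ∏ e σ (- p(s))`. -/
theorem norm_point [NeZero q.natDegree] (h : IsLine p q g) (hd : derivative q ≠ 0) {u : AdjoinRoot (poly F L (surf g))}
    (hu : pi0 F L h u = algebraMap F[X] L (-(pF F p))) :
    Algebra.norm L u = pi1 F L g u * (gL F L g).eval 0 := by
  obtain ⟨ι, -⟩ : ∃ ι : L →+* AlgebraicClosure L, ι = algebraMap L (AlgebraicClosure L) := ⟨_, rfl⟩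
  obtain ⟨e, he, he'⟩ := nrmb_exists (F := F) (q := q) ι
  apply ι.injective
  rw [norm_formula ι h hd he he' u, map_mul, hu]
  congr 1
  have h1 : ι ((gL F L g).eval 0) = ((gL F L g).map ι).eval 0 := by
    rw [eval_map, ← map_zero ι, eval₂_hom]
  rw [h1, gL_map h hd, eval_multiset_prod, Multiset.map_map]
  congr 1
  refine Multiset.map_congr rfl fun σ hσ => ?_
  rw [Function.comp_apply, map_neg, map_neg, he σ hσ, eval_sub, eval_X, eval_C, zero_sub]

end Pool.Agent.Lib.MP_89bcae_ag.El
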