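import Mathlib
import Pool.Agent.Lib.MP_89bcae_ag.Xs.Ord
import Pool.Agent.Lib.MP_89bcae_ag.Xs.Inf
import Pool.Agent.Lib.MP_89bcae_ag.El.NrmB
import Pool.Agent.Lib.MP_89bcae_ag.El.Cht
import Pool.Agent.Lib.MP_89bcae_ag.El.ChtI

/-!
# The parities of the orders
-/

open Polynomial IsDedekindDomain

open scoped Classical

namespace Pool.Agent.Lib.MP_89bcae_ag.El

open Pool.Agent.Lib.MP_89bcae_ag.Ze

open Pool.Agent.Lib.MP_89bcae_ag.Xs

variable {k F L : Type} [Field k] [Field F] [Algebra k F] [Field L] [Algebra F[X] L] [IsFractionRing F[X] L]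
  [IsAlgClosed F] {p q : k[X]} {g : k[X][X]} [NeZero q.natDegree]

omit [IsAlgClosed F] [NeZero q.natDegree] in
private lemma rka_eval (R : F[X][X]) (P Q : F[X]) (b : F) :
    (R.eval₂ (compRingHom Q) P).eval b = (R.map (evalRingHom (Q.eval b))).eval (P.eval b) := by
  have h1 := hom_eval₂ R (compRingHom Q) (evalRingHom b) P
  rw [coe_evalRingHom] at h1
  rw [h1, eval_map]
  congr 1
  refine RingHom.ext fun r => ?_
  rw [RingHom.comp_apply, coe_compRingHom_apply, coe_evalRingHom, coe_evalRingHom, eval_comp]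

omit [IsAlgClosed F] [NeZero q.natDegree] in
private lemma rka_inj (h : IsLine p q g) {b s : F} (hq : (pF F q).eval b = (pF F q).eval s)
    (hp : (pF F p).eval b = (pF F p).eval s) : b = s := by
  obtain ⟨R, hR⟩ := exists_invF (F := F) h
  have h1 := rka_eval R (pF F p) (pF F q) b
  have h2 := rka_eval R (pF F p) (pF F q) s
  rw [hR, eval_X] at h1 h2
  rw [h1, h2, hq, hp]

omit [IsAlgClosed F] [NeZero q.natDegree] in
private lemma rka_mem (hp : p ≠ 0) (s : F) : s ∈ p.rootSet F ↔ (pF F p).eval s = 0 := by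
  unfold pF
  rw [mem_rootSet, eval_map_algebraMap]
  exact ⟨fun h => h.2, fun h => ⟨hp, h⟩⟩

omit [IsAlgClosed F] in
private lemma rka_root (s : F) : s ∈ (pF F q - C ((pF F q).eval s)).roots.toFinset := by
  have h0 : pF F q - C ((pF F q).eval s) ≠ 0 := by
    intro h
    have h1 : (pF F q).natDegree = 0 := by
      rw [sub_eq_zero.1 h, natDegree_C]
    rw [natDegree_pF] at h1
    exact NeZero.ne _ h1
  rw [Multiset.mem_toFinset, mem_roots h0, IsRoot.def, eval_sub, eval_C, sub_self]

omit [IsAlgClosed F] [NeZero q.natDegree] in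
private lemma rka_of_root {b r : F} (hb : b ∈ (pF F q - C r).roots.toFinset) : (pF F q).eval b = r := by
  rw [Multiset.mem_toFinset] at hb
  have h1 := (mem_roots'.1 hb).2
  rw [IsRoot.def, eval_sub, eval_C] at h1
  exact sub_eq_zero.1 h1

/-- The relation between the orders. Proof: `norm_rel`: `v ^ 2 = pi1 u * w`, take the orders at `r` (`ord_mul`, `ord_pow`). -/
theorem rel (h : IsLine p q g) (hd : derivative q ≠ 0) {u : (AdjoinRoot (poly F L (surf g)))ˣ}
    (hN : ∃ v : L, Algebra.norm L (u : AdjoinRoot (poly F L (surf g))) = v ^ 2) (r : F) :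
    Even (ord r (pi1 F L g u) + ∑ b ∈ (pF F q - C r).roots.toFinset, ord b (pi0 F L h u)) := by
  obtain ⟨v, hv⟩ := hN
  obtain ⟨w, hw0, hw, hord⟩ := norm_rel (F := F) (L := L) h hd u
  have h1 : pi1 F L g u ≠ 0 := (u.isUnit.map (pi1 F L g)).ne_zero
  rw [← hord r, ← Xs.ord_mul r h1 hw0, ← hw, hv, Xs.ord_pow]
  exact even_two_mul _

/-- The relation between the parities at a root of `p`. Proof: `rel` at `r = q(s)`; the other elements `b` with `q(b) = q(s)`
have `p(b) ≠ 0` (the points `(q(b), p(b))` and `(q(s), p(s))` are distinct: `R(q(b), p(b)) = b`, evaluate `exists_invF`), so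
`ord b (pi0 u)` is even by `even_pi0`. -/
theorem par_rel (h : IsLine p q g) (hd : derivative q ≠ 0) {u : (AdjoinRoot (poly F L (surf g)))ˣ}
    (hu : u ∈ unramified 2 F (poly F L (surf g))) {s : F} (hs : (pF F p).eval s = 0) :
    Even (ord ((pF F q).eval s) (pi1 F L g u) + ord s (pi0 F L h u)) := by
  have h3 := rel h hd hu.1 ((pF F q).eval s)
  rw [← Finset.add_sum_erase _ _ (rka_root (q := q) s), ← add_assoc] at h3
  refine (Int.even_add.1 h3).2 (Finset.even_sum _ fun b hb => ?_)
  rw [Finset.mem_erase] at hb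
  refine even_pi0 h hu fun h4 => hb.1 ?_
  exact rka_inj h (rka_of_root hb.2) (by rw [h4, hs])

/-- Compare `sum_even` in `Xm/Rk.lean`: the element `pi1 u` of `F(t)` has even orders at the `r` which are not of the form `q(s)`, `s`
a root of `p` (`even_pi1`; if `g(r, 0) = 0` then `of_zero` gives `s`), and at infinity (`inf_pi1`), so by `exists_inf` the sum of its
orders at the `q(s)` is even; `s ↦ q(s)` is injective on the roots of `p`; and `par_rel`. -/
theorem sum_even (h : IsLine p q g) (hd : derivative q ≠ 0) {e : ℕ} (hp : p.natDegree ≠ 0)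
    (he : p.natDegree = e * q.natDegree) (he' : Even e)
    {u : (AdjoinRoot (poly F L (surf g)))ˣ} (hu : u ∈ unramified 2 F (poly F L (surf g))) :
    Even (∑ s : p.rootSet F, ord (s : F) (pi0 F L h u)) := by
  have hp0 : p ≠ 0 := by
    rintro rfl
    exact hp natDegree_zero
  obtain ⟨O, hO, hO', h1⟩ := Xs.exists_inf F L
  let T : Finset F := Finset.univ.image fun s : p.rootSet F => (pF F q).eval (s : F)
  have hT : ∀ r ∉ T, Even (ord r (pi1 F L g u)) := by
    intro r hr
    refine even_pi1 h hu fun h3 => hr ?_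
    obtain ⟨b, hb, hb'⟩ := of_zero h h3
    exact Finset.mem_image.2 ⟨⟨b, (rka_mem hp0 b).2 hb'⟩, Finset.mem_univ _, hb⟩
  have h5 := h1 (pi1 F L g u) (u.isUnit.map (pi1 F L g)).ne_zero T hT (inf_pi1 h hd hp he he' hu O hO hO')
  have hinj : ∀ s ∈ (Finset.univ : Finset (p.rootSet F)), ∀ s' ∈ (Finset.univ : Finset (p.rootSet F)),
      (pF F q).eval (s : F) = (pF F q).eval (s' : F) → s = s' := by
    intro s _ s' _ hss
    apply Subtype.ext
    exact rka_inj h hss (by rw [(rka_mem hp0 _).1 s.2, (rka_mem hp0 _).1 s'.2])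
  rw [Finset.sum_image hinj] at h5
  have h6 : Even (∑ s : p.rootSet F, (ord ((pF F q).eval (s : F)) (pi1 F L g u) + ord (s : F) (pi0 F L h u))) :=
    Finset.even_sum _ fun s _ => par_rel h hd hu ((rka_mem hp0 _).1 s.2)
  rw [Finset.sum_add_distrib] at h6
  exact (Int.even_add.1 h6).1 h5

end Pool.Agent.Lib.MP_89bcae_ag.El
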