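import Mathlib
import Pool.Agent.Lib.MP_89bcae_ag.El.RkA

/-!
# The group `points`
-/

open Polynomial IsDedekindDomain

open scoped Classical

namespace Pool.Agent.Lib.MP_89bcae_ag.El

open Pool.Agent.Lib.MP_89bcae_ag.Ze

open Pool.Agent.Lib.MP_89bcae_ag.Xs

variable {k F L : Type} [Field k] [Field F] [Algebra k F] [Field L] [Algebra F[X] L] [IsFractionRing F[X] L]
  [IsAlgClosed F] {p q : k[X]} {g : k[X][X]} [NeZero q.natDegree]

omit [IsAlgClosed F] in
private lemma rkb_pi0_ne (h : IsLine p q g) (u : (AdjoinRoot (poly F L (surf g)))ˣ) : pi0 F L h u ≠ 0 :=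
  (u.isUnit.map (pi0 F L h)).ne_zero

omit [IsAlgClosed F] [NeZero q.natDegree] in
private lemma rkb_pi1_ne (u : (AdjoinRoot (poly F L (surf g)))ˣ) : pi1 F L g u ≠ 0 :=
  (u.isUnit.map (pi1 F L g)).ne_zero

omit [IsAlgClosed F] [NeZero q.natDegree] in
private lemma rkb_mem (hp : p ≠ 0) (s : F) : s ∈ p.rootSet F ↔ (pF F p).eval s = 0 := by
  rw [mem_rootSet, pF, eval_map_algebraMap]
  exact ⟨fun h => h.2, fun h => ⟨hp, h⟩⟩

/-- A unit, the norm of which is a square and such that the orders of the value on the second component are even, is a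
square. Compare `Rk_sq` in `Xm/Rk.lean`; the orders of `pi1 u` are even by `rel`. -/
theorem mem_of_even (h : IsLine p q g) (hd : derivative q ≠ 0) (hp : p ≠ 0) {u : (AdjoinRoot (poly F L (surf g)))ˣ}
    (hN : ∃ v : L, Algebra.norm L (u : AdjoinRoot (poly F L (surf g))) = v ^ 2)
    (he : ∀ r : F, Even (ord r (pi0 F L h u))) : u ∈ points 2 (poly F L (surf g)) := by
  have h1 : ∀ r : F, Even (ord r (pi1 F L g u)) := fun r =>
    (Int.even_add.1 (rel h hd hN r)).2 (Finset.even_sum _ fun b _ => he b)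
  obtain ⟨y, hy⟩ := exists_sq (rkb_pi0_ne h u) he
  obtain ⟨z, hz⟩ := exists_sq (rkb_pi1_ne u) h1
  obtain ⟨w, hw1, hw0⟩ := pi_surjective (F := F) (L := L) h hp z y
  have hw : w ^ 2 = u := by
    rw [← sub_eq_zero]
    apply pi_injective h hp
    · rw [map_sub, map_pow, hw1, hz, sub_self]
    · rw [map_sub, map_pow, hw0, hy, sub_self]
  have hwu : IsUnit w := by
    have h3 : IsUnit (w ^ 2) := hw ▸ u.isUnit
    exact (isUnit_pow_iff two_ne_zero).1 h3
  refine Subgroup.subset_closure (Or.inl ⟨hwu.unit, Units.ext ?_⟩)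
  rw [Units.val_pow_eq_pow_val, IsUnit.unit_spec, hw]

/-- The point `x = 0`. Compare `Rk_point` in `Xm/Rk.lean`: the polynomial `H = gL F L g - X` is monic (`m ≥ 2`) and divides
`X ^ 2 - X * gL F L g`; `pi1 (mk H) = g(t, 0)`, `pi0 (mk H) = - p(s)`, and the norm is `g(t, 0) ^ 2` by `norm_point`. -/
theorem exists_point (h : IsLine p q g) (hd : derivative q ≠ 0) (hp : p ≠ 0) (hm : Even q.natDegree) :
    ∃ u ∈ points 2 (poly F L (surf g)), pi0 F L h u = algebraMap F[X] L (-(pF F p)) ∧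
      ∃ v : L, Algebra.norm L (u : AdjoinRoot (poly F L (surf g))) = v ^ 2 := by
  have h2m : 2 ≤ q.natDegree := by
    have h1 : q.natDegree ≠ 0 := NeZero.ne _
    obtain ⟨r, hr⟩ := hm
    omega
  obtain ⟨H, hH⟩ : ∃ H : L[X], H = gL F L g - X := ⟨_, rfl⟩
  have hgH : gL F L g = H + X := by rw [hH]; ring
  have hmon : H.Monic := by
    rw [hH]
    refine Monic.sub_of_left (gL_monic h) ?_
    rw [degree_X, degree_eq_natDegree (gL_monic h).ne_zero, gL_natDegree h]
    exact_mod_cast h2m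
  have hdvd : H ∣ X ^ 2 - poly F L (surf g) := ⟨-X, by
    rw [poly_surf, hgH]
    ring⟩
  have e1 : pi1 F L g (AdjoinRoot.mk _ H) = (gL F L g).eval 0 := by
    rw [pi1_mk, hH, eval_sub, eval_X, sub_zero]
  have e0 : pi0 F L h (AdjoinRoot.mk _ H) = algebraMap F[X] L (-(pF F p)) := by
    rw [pi0_mk, hH, eval₂_sub, eval₂_X, gL_vanish h, zero_sub, map_neg]
  have hne0 : pi0 F L h (AdjoinRoot.mk _ H) ≠ 0 := by
    rw [e0]
    exact (map_ne_zero_iff _ (IsFractionRing.injective F[X] L)).2 (neg_ne_zero.2 (pF_ne_zero hp))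
  have hne1 : pi1 F L g (AdjoinRoot.mk _ H) ≠ 0 := by
    rw [e1]
    exact gL_eval_zero h hp
  obtain ⟨w, hw1, hw0⟩ := pi_surjective (F := F) (L := L) h hp (pi1 F L g (AdjoinRoot.mk _ H))⁻¹
    (pi0 F L h (AdjoinRoot.mk _ H))⁻¹
  have hmul : AdjoinRoot.mk _ H * w = 1 := by
    rw [← sub_eq_zero]
    apply pi_injective h hp
    · rw [map_sub, map_mul, hw1, mul_inv_cancel₀ hne1, map_one, sub_self]
    · rw [map_sub, map_mul, hw0, mul_inv_cancel₀ hne0, map_one, sub_self]
  refine ⟨Units.mkOfMulEqOne _ w hmul, Subgroup.subset_closure (Or.inr ⟨H, X, hmon, hdvd, rfl⟩), e0, ?_⟩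
  refine ⟨(gL F L g).eval 0, ?_⟩
  have h5 := norm_point h hd e0
  rw [e1] at h5
  rw [pow_two]
  exact h5

/-- Compare `mem_points` in `Xm/Rk.lean`. -/
theorem mem_points (h : IsLine p q g) (hd : derivative q ≠ 0) (hs : p.Separable) (hm : Even q.natDegree)
    {u : (AdjoinRoot (poly F L (surf g)))ˣ} (hu : u ∈ unramified 2 F (poly F L (surf g)))
    (he : ∀ s s' : p.rootSet F, (Even (ord (s : F) (pi0 F L h u)) ↔ Even (ord (s' : F) (pi0 F L h u)))) :
    u ∈ points 2 (poly F L (surf g)) := by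
  have hp : p ≠ 0 := hs.ne_zero
  by_cases h1 : ∀ s : p.rootSet F, Even (ord (s : F) (pi0 F L h u))
  · refine mem_of_even h hd hp hu.1 fun r => ?_
    by_cases hr : (pF F p).eval r = 0
    · exact h1 ⟨r, (rkb_mem hp r).2 hr⟩
    · exact even_pi0 h hu hr
  · push Not at h1
    obtain ⟨s0, hs0⟩ := h1
    obtain ⟨u0, hu0, h0, v0, hv0⟩ := exists_point (F := F) (L := L) h hd hp hm
    have hal : (pF F p).Separable := hs.map
    have h3 : u * u0 ∈ points 2 (poly F L (surf g)) := by
      obtain ⟨v, hv⟩ := hu.1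
      refine mem_of_even h hd hp ⟨v * v0, by rw [Units.val_mul, map_mul, hv, hv0, mul_pow]⟩ fun r => ?_
      rw [Units.val_mul, map_mul, ord_mul r (rkb_pi0_ne h u) (rkb_pi0_ne h u0), h0,
        ord_algebraMap r (neg_ne_zero.2 hal.ne_zero), ← count_roots, roots_neg, count_roots]
      by_cases hr : (pF F p).eval r = 0
      · have h4 : (pF F p).rootMultiplicity r = 1 := by
          have h5 := rootMultiplicity_le_one_of_separable hal r
          have h6 := (rootMultiplicity_pos hal.ne_zero).2 hr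
          omega
        have h5 : ¬ Even (ord r (pi0 F L h u)) := by
          have h6 := he s0 ⟨r, (rkb_mem hp r).2 hr⟩
          exact fun h7 => hs0 (h6.2 h7)
        rw [h4, Int.even_add]
        exact iff_of_false h5 (by norm_num)
      · rw [rootMultiplicity_eq_zero hr, Nat.cast_zero, add_zero]
        exact even_pi0 h hu hr
    have h4 := mul_mem h3 (inv_mem hu0)
    rwa [mul_assoc, mul_inv_cancel, mul_one] at h4

end Pool.Agent.Lib.MP_89bcae_ag.El
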